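import Mathlib

/-!
Combinatorics on words: windows, factor complexity, coding of a word by the two loops at its
unique right special factor.
-/

namespace Pool.Agent.H43R2.Cplx

variable {α : Type*}

/-- the window of length `n` of the word `w` at position `i` -/
def win (w : ℕ → α) (n i : ℕ) : Fin n → α := fun k => w (i + k)

/-- factor complexity: the number of distinct windows of length `n` -/
noncomputable def p (w : ℕ → α) (n : ℕ) : ℕ := (Set.range (win w n)).ncard

/-- the windows of length `n` at positions `i` and `j` agree -/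
def E (w : ℕ → α) (n i j : ℕ) : Prop := ∀ k < n, w (i + k) = w (j + k)

theorem E_iff {w : ℕ → α} {n i j : ℕ} : E w n i j ↔ win w n i = win w n j := by
  constructor
  · intro h
    funext k
    exact h k k.2
  · intro h k hk
    exact congrFun h ⟨k, hk⟩

theorem E.refl (w : ℕ → α) (n i : ℕ) : E w n i i := fun _ _ => rfl
theorem E.symm {w : ℕ → α} {n i j : ℕ} (h : E w n i j) : E w n j i := fun k hk => (h k hk).symm
theorem E.trans {w : ℕ → α} {n i j l : ℕ} (h : E w n i j) (h' : E w n j l) : E w n i l :=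
  fun k hk => (h k hk).trans (h' k hk)
theorem E.mono {w : ℕ → α} {n m i j : ℕ} (h : E w n i j) (hm : m ≤ n) : E w m i j :=
  fun k hk => h k (lt_of_lt_of_le hk hm)
theorem E.shift {w : ℕ → α} {n t i j : ℕ} (h : E w (n + t) i j) : E w n (i + t) (j + t) := by
  intro k hk
  have := h (t + k) (by omega)
  rw [show i + t + k = i + (t + k) by omega, show j + t + k = j + (t + k) by omega]
  exact this
theorem E.succ {w : ℕ → α} {n i j : ℕ} (h : E w n i j) (h' : w (i + n) = w (j + n)) :
    E w (n + 1) i j := by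
  intro k hk
  rcases Nat.lt_succ_iff_lt_or_eq.mp hk with h1 | h1
  · exact h k h1
  · subst h1; exact h'
theorem E.append {w : ℕ → α} {n t i j : ℕ} (h : E w t i j) (h' : E w n (i + t) (j + t)) :
    E w (t + n) i j := by
  intro k hk
  by_cases h1 : k < t
  · exact h k h1
  · have := h' (k - t) (by omega)
    rw [show i + t + (k - t) = i + k by omega, show j + t + (k - t) = j + k by omega] at this
    exact this

theorem E.next {w : ℕ → α} {n i j : ℕ} (h : E w (n + 1) i j) : w (i + n) = w (j + n) :=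
  h n (by omega)

/-- two positions are never equivalent at all lengths -/
def NP (w : ℕ → α) : Prop := ∀ i j, i < j → ∃ n, ¬ E w n i j

theorem finite_range [Finite α] (w : ℕ → α) (n : ℕ) : (Set.range (win w n)).Finite :=
  Set.toFinite _

/-- restriction of windows -/
def res {n : ℕ} (x : Fin (n + 1) → α) : Fin n → α := fun k => x k.castSucc

theorem res_win (w : ℕ → α) (n i : ℕ) : res (win w (n + 1) i) = win w n i := rfl

theorem key1 [Finite α] (w : ℕ → α) (n : ℕ) (h : p w (n + 1) ≤ p w n + 1)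
    (hd : ¬ ∀ i j, E w n i j → E w (n + 1) i j) :
    ∃ i₁ i₂, E w n i₁ i₂ ∧ ¬ E w (n + 1) i₁ i₂ ∧ ∀ i j, E w n i j → ¬ E w (n + 1) i j →
      (E w (n + 1) i i₁ ∧ E w (n + 1) j i₂) ∨ (E w (n + 1) i i₂ ∧ E w (n + 1) j i₁) := by
  push Not at hd
  obtain ⟨i₁, i₂, h1, h2⟩ := hd
  refine ⟨i₁, i₂, h1, h2, ?_⟩
  set X := Set.range (win w (n + 1)) with hX
  set Y := Set.range (win w n) with hY
  have hXf : X.Finite := finite_range w (n + 1)
  have hYf : Y.Finite := finite_range w n
  have key : ∀ a b : ℕ, E w n a b → ¬ E w (n + 1) a b → Set.InjOn res (X \ {win w (n + 1) b}) := by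
    intro a b hab hab'
    have himg : res '' (X \ {win w (n + 1) b}) = Y := by
      apply Set.Subset.antisymm
      · rintro y ⟨x, ⟨⟨i, rfl⟩, -⟩, rfl⟩
        exact ⟨i, rfl⟩
      · rintro y ⟨i, rfl⟩
        by_cases hi : win w (n + 1) i = win w (n + 1) b
        · refine ⟨win w (n + 1) a, ⟨⟨a, rfl⟩, ?_⟩, ?_⟩
          · intro hh
            exact hab' (E_iff.mpr hh)
          · rw [res_win, E_iff.mp hab]
            exact (congrArg res hi).symm
        · exact ⟨win w (n + 1) i, ⟨⟨i, rfl⟩, hi⟩, rfl⟩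
    have hfin : (X \ {win w (n + 1) b}).Finite := hXf.subset Set.sdiff_subset
    apply Set.injOn_of_ncard_image_eq _ hfin
    have hle : (res '' (X \ {win w (n + 1) b})).ncard ≤ (X \ {win w (n + 1) b}).ncard :=
      Set.ncard_image_le hfin
    have hc : (X \ {win w (n + 1) b}).ncard = X.ncard - 1 := by
      exact Set.ncard_sdiff_singleton_of_mem (Set.mem_range_self b)
    have hXc : X.ncard ≤ Y.ncard + 1 := h
    rw [himg] at hle ⊢
    omega
  intro i j hij hij'
  have k2 := key i₁ i₂ h1 h2
  have k1 := key i₂ i₁ h1.symm (fun h => h2 h.symm)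
  have hne : win w (n + 1) i ≠ win w (n + 1) j := fun hh => hij' (E_iff.mpr hh)
  have hres : res (win w (n + 1) i) = res (win w (n + 1) j) := by
    rw [res_win, res_win]; exact E_iff.mp hij
  have c2 : win w (n + 1) i = win w (n + 1) i₂ ∨ win w (n + 1) j = win w (n + 1) i₂ := by
    by_contra hcon
    push Not at hcon
    exact hne (k2 ⟨⟨i, rfl⟩, hcon.1⟩ ⟨⟨j, rfl⟩, hcon.2⟩ hres)
  have c1 : win w (n + 1) i = win w (n + 1) i₁ ∨ win w (n + 1) j = win w (n + 1) i₁ := by
    by_contra hcon
    push Not at hcon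
    exact hne (k1 ⟨⟨i, rfl⟩, hcon.1⟩ ⟨⟨j, rfl⟩, hcon.2⟩ hres)
  have h12 : win w (n + 1) i₁ ≠ win w (n + 1) i₂ := fun hh => h2 (E_iff.mpr hh)
  rcases c1 with c1 | c1 <;> rcases c2 with c2 | c2
  · exact absurd (c1.symm.trans c2) h12
  · exact Or.inl ⟨E_iff.mpr c1, E_iff.mpr c2⟩
  · exact Or.inr ⟨E_iff.mpr c2, E_iff.mpr c1⟩
  · exact absurd (c1.symm.trans c2) h12

theorem key2 [Finite α] (w : ℕ → α) (n b : ℕ)
    (h : ∀ i j, E w n i j → ¬ E w (n + 1) i j → E w (n + 1) i b ∨ E w (n + 1) j b) :
    p w (n + 1) ≤ p w n + 1 := by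
  set X := Set.range (win w (n + 1)) with hX
  set Y := Set.range (win w n) with hY
  have hXf : X.Finite := finite_range w (n + 1)
  have hYf : Y.Finite := finite_range w n
  have hinj : Set.InjOn res (X \ {win w (n + 1) b}) := by
    rintro x ⟨⟨i, rfl⟩, hi⟩ y ⟨⟨j, rfl⟩, hj⟩ hxy
    by_contra hne
    rw [res_win, res_win] at hxy
    rcases h i j (E_iff.mpr hxy) (fun hh => hne (E_iff.mp hh)) with h1 | h1
    · exact hi (E_iff.mp h1)
    · exact hj (E_iff.mp h1)
  have hmap : Set.MapsTo res (X \ {win w (n + 1) b}) Y := by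
    rintro x ⟨⟨i, rfl⟩, -⟩
    exact ⟨i, rfl⟩
  have h1 : (X \ {win w (n + 1) b}).ncard ≤ Y.ncard :=
    Set.ncard_le_ncard_of_injOn res hmap hinj hYf
  have hc : (X \ {win w (n + 1) b}).ncard = X.ncard - 1 :=
    Set.ncard_sdiff_singleton_of_mem (Set.mem_range_self b)
  show X.ncard ≤ Y.ncard + 1
  omega

/-- no eventual determinism for a non-periodic word -/
theorem noDet [Finite α] {w : ℕ → α} (hw : NP w) (n M : ℕ)
    (h : ∀ i j, M ≤ i → M ≤ j → E w n i j → E w (n + 1) i j) : False := by
  have hpig : ∃ i j, M ≤ i ∧ i < j ∧ E w n i j := by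
    have : ¬ Function.Injective (fun i : ℕ => win w n (M + i)) := by
      intro hinj
      exact not_injective_infinite_finite _ hinj
    rw [Function.Injective] at this
    push Not at this
    obtain ⟨i, j, hij, hne⟩ := this
    rcases lt_or_gt_of_ne hne with h1 | h1
    · exact ⟨M + i, M + j, by omega, by omega, E_iff.mpr hij⟩
    · exact ⟨M + j, M + i, by omega, by omega, E_iff.mpr hij.symm⟩
  obtain ⟨i, j, hi, hij, hE⟩ := hpig
  have hall : ∀ t, E w n (i + t) (j + t) := by
    intro t
    induction t with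
    | zero => simpa using hE
    | succ t ih =>
      have := h (i + t) (j + t) (by omega) (by omega) ih
      exact E.shift (t := 1) this
  obtain ⟨m, hm⟩ := hw i j hij
  apply hm
  intro k hk
  have h0 := hall k
  have hn : E w (n + 1) (i + k) (j + k) := h _ _ (by omega) (by omega) h0
  have := hn 0 (by omega)
  simpa using this

end Pool.Agent.H43R2.Cplx
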