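import Pool.Agent.H43R2.Cplx.Cod

namespace Pool.Agent.H43R2.Cplx

variable {α : Type*}

namespace Cod

variable {w : ℕ → α} {N : ℕ} {T : ℕ → ℕ} {χ : ℕ → Bool} {ℓ : Bool → ℕ}

theorem shift (h : Cod w N T χ ℓ)
    (hl : ∀ m m', w (T (m + 1) - 1) = w (T (m' + 1) - 1)) :
    ∃ T' χ', Cod w (N + 1) T' χ' ℓ := by
  have hpos : ∀ m, 1 ≤ T (m + 1) := fun m => by
    have := h.mono (show m < m + 1 by omega); omega
  have main : ∀ o : ℕ, (∀ m, 1 ≤ T (m + o)) → (∀ m, w (T (m + o) - 1) = w (T 1 - 1)) →
      (∀ m, 1 ≤ T m → w (T m - 1) = w (T 1 - 1) → o ≤ m) →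
      Cod w (N + 1) (fun m => T (m + o) - 1) (fun m => χ (m + o)) ℓ := by
    intro o h1 h2 h3
    refine ⟨h.pos, ?_, ?_, ?_, ?_, ?_, ?_⟩
    · intro m
      show T (m + 1 + o) - 1 = T (m + o) - 1 + ℓ (χ (m + o))
      have e := h.step (m + o)
      rw [show m + 1 + o = m + o + 1 by omega, e]
      have := h1 m
      omega
    · intro m m'
      show E w (N + 1) (T (m + o) - 1) (T (m' + o) - 1)
      rw [show N + 1 = 1 + N by omega]
      refine E.append ?_ ?_
      · intro k hk
        rw [show k = 0 by omega]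
        simp only [add_zero]
        rw [h2, h2]
      · have a1 := h1 m
        have a2 := h1 m'
        rw [show T (m + o) - 1 + 1 = T (m + o) by omega,
          show T (m' + o) - 1 + 1 = T (m' + o) by omega]
        exact h.same _ _
    · intro i hi
      have hi' : E w (N + 1) i (T (0 + o) - 1) := hi
      have e0 := hi' 0 (by omega)
      simp only [add_zero] at e0
      have e1 : E w N (i + 1) (T (0 + o) - 1 + 1) := E.shift hi'
      rw [show T (0 + o) - 1 + 1 = T (0 + o) by have := h1 0; omega] at e1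
      obtain ⟨m, hm⟩ := h.cov (i + 1) (e1.trans (h.same _ _))
      have hw : w (T m - 1) = w (T 1 - 1) := by
        rw [hm, show i + 1 - 1 = i by omega, e0]; exact h2 0
      have ho := h3 m (by omega) hw
      refine ⟨m - o, ?_⟩
      show T (m - o + o) - 1 = i
      rw [show m - o + o = m by omega, hm]
      omega
    · intro m m'
      show χ (m + o) = χ (m' + o) ↔ w (T (m + o) - 1 + (N + 1)) = w (T (m' + o) - 1 + (N + 1))
      have a1 := h1 m
      have a2 := h1 m'
      rw [show T (m + o) - 1 + (N + 1) = T (m + o) + N by omega,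
          show T (m' + o) - 1 + (N + 1) = T (m' + o) + N by omega]
      exact h.next _ _
    · intro i j hij hne
      have hij1 : E w N (i + 1) (j + 1) := E.shift hij
      have hne' : w (i + 1 + N) ≠ w (j + 1 + N) := by
        rw [show i + 1 + N = i + (N + 1) by omega, show j + 1 + N = j + (N + 1) by omega]
        exact hne
      obtain ⟨m1, hm1⟩ := h.uniq _ _ hij1 hne'
      obtain ⟨m2, hm2⟩ := h.uniq _ _ hij1.symm (fun hh => hne' hh.symm)
      have e0 := hij 0 (by omega)
      simp only [add_zero] at e0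
      have hm12 : m1 ≠ m2 := by
        intro hh
        rw [hh, hm2] at hm1
        apply hne'
        rw [hm1]
      have hw : w i = w (T 1 - 1) := by
        rcases Nat.eq_zero_or_pos m1 with hz | hz
        · have hz2 : 0 < m2 := by omega
          have := hl (m2 - 1) 0
          rw [show m2 - 1 + 1 = m2 by omega, hm2, show j + 1 - 1 = j by omega] at this
          rw [e0, this]
        · have := hl (m1 - 1) 0
          rw [show m1 - 1 + 1 = m1 by omega, hm1, show i + 1 - 1 = i by omega] at this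
          rw [this]
      have ho := h3 m1 (by omega) (by rw [hm1, show i + 1 - 1 = i by omega]; exact hw)
      refine ⟨m1 - o, ?_⟩
      show T (m1 - o + o) - 1 = i
      rw [show m1 - o + o = m1 by omega, hm1]
      omega
    · intro c M
      obtain ⟨m, hm, hc⟩ := h.inf c (M + o)
      refine ⟨m - o, by omega, ?_⟩
      show χ (m - o + o) = c
      rw [show m - o + o = m by omega]; exact hc
  by_cases hc : 1 ≤ T 0 ∧ w (T 0 - 1) = w (T 1 - 1)
  · refine ⟨_, _, main 0 ?_ ?_ ?_⟩
    · intro m
      cases m with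
      | zero => exact hc.1
      | succ m => exact hpos m
    · intro m
      cases m with
      | zero => exact hc.2
      | succ m => exact hl m 0
    · intro m _ _; omega
  · refine ⟨_, _, main 1 hpos (fun m => hl m 0) ?_⟩
    intro m h1 h2
    rcases Nat.eq_zero_or_pos m with hz | hz
    · subst hz; exact absurd ⟨h1, h2⟩ hc
    · exact hz

theorem p_le [Finite α] (h : Cod w N T χ ℓ) : p w (N + 1) ≤ p w N + 1 := by
  obtain ⟨mB, -, hB⟩ := h.inf false 0
  refine key2 w N (T mB) ?_
  intro i j hij hne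
  have hne' : w (i + N) ≠ w (j + N) := fun hh => hne (hij.succ hh)
  obtain ⟨m1, hm1⟩ := h.uniq _ _ hij hne'
  obtain ⟨m2, hm2⟩ := h.uniq _ _ hij.symm (fun hh => hne' hh.symm)
  rw [← hm1, ← hm2] at hne' ⊢
  have hx : χ m1 ≠ χ m2 := fun hh => hne' ((h.next _ _).mp hh)
  by_cases h1 : χ m1 = false
  · left
    exact (h.same _ _).succ ((h.next _ _).mp (h1.trans hB.symm))
  · right
    have h2 : χ m2 = false := by
      revert h1 hx
      cases χ m1 <;> cases χ m2 <;> simp
    exact (h.same _ _).succ ((h.next _ _).mp (h2.trans hB.symm))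

theorem exists_bisp [Finite α] (h : Cod w N T χ ℓ) :
    ∃ N' T' χ', N ≤ N' ∧ Cod w N' T' χ' ℓ ∧ p w N' + N ≤ p w N + N' ∧
      ∃ m m', w (T' (m + 1) - 1) ≠ w (T' (m' + 1) - 1) := by
  obtain ⟨k, hk⟩ : ∃ k, ℓ true + ℓ false ≤ N + k := ⟨ℓ true + ℓ false, by omega⟩
  induction k generalizing N T χ with
  | zero => have := h.fw; omega
  | succ k ih =>
    by_cases hl : ∀ m m', w (T (m + 1) - 1) = w (T (m' + 1) - 1)
    · obtain ⟨T', χ', h'⟩ := h.shift hl
      obtain ⟨N', T'', χ'', h1, h2, h3, h4⟩ := ih h' (by omega)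
      have := h.p_le
      exact ⟨N', T'', χ'', by omega, h2, by omega, h4⟩
    · push Not at hl
      exact ⟨N, T, χ, le_rfl, h, by omega, hl⟩

/-- the first occurrence of the special window at or after `i` is at `i + u` -/
def Hit (T : ℕ → ℕ) (i u : ℕ) : Prop := (∃ m, T m = i + u) ∧ ∀ u' < u, ∀ m, T m ≠ i + u'

theorem Hit.unique {T : ℕ → ℕ} {i u v : ℕ} (h1 : Hit T i u) (h2 : Hit T i v) : u = v := by
  rcases lt_trichotomy u v with h | h | h
  · obtain ⟨m, hm⟩ := h1.1
    exact absurd hm (h2.2 u h m)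
  · exact h
  · obtain ⟨m, hm⟩ := h2.1
    exact absurd hm (h1.2 v h m)

theorem hit_transfer (h : Cod w N T χ ℓ) {u : ℕ} : ∀ {i j : ℕ}, E w N i j → Hit T i u →
    Hit T j u ∧ E w (N + u) i j := by
  induction u with
  | zero =>
    intro i j hij hi
    obtain ⟨m, hm⟩ := hi.1
    rw [add_zero] at hm
    subst hm
    obtain ⟨m', hm'⟩ := h.cov j (hij.symm.trans (h.same _ _))
    exact ⟨⟨⟨m', by omega⟩, fun u' hu' => absurd hu' (by omega)⟩, hij⟩
  | succ u ih =>
    intro i j hij hi
    have hi0 : ∀ m, T m ≠ i := fun m => by simpa using hi.2 0 (by omega) m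
    have hj0 : ∀ m, T m ≠ j := by
      intro m hm
      subst hm
      obtain ⟨m', hm'⟩ := h.cov i (hij.trans (h.same _ _))
      exact hi0 m' hm'
    have hw : w (i + N) = w (j + N) := by
      by_contra hne
      obtain ⟨m, hm⟩ := h.uniq i j hij hne
      exact hi0 m hm
    have hE : E w (N + 1) i j := hij.succ hw
    have hE1 : E w N (i + 1) (j + 1) := E.shift hE
    have hi1 : Hit T (i + 1) u := by
      refine ⟨?_, ?_⟩
      · obtain ⟨m, hm⟩ := hi.1
        exact ⟨m, by omega⟩
      · intro u' hu' m hm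
        exact hi.2 (u' + 1) (by omega) m (by omega)
    obtain ⟨h1, h2⟩ := ih hE1 hi1
    refine ⟨⟨?_, ?_⟩, ?_⟩
    · obtain ⟨m, hm⟩ := h1.1
      exact ⟨m, by omega⟩
    · intro u' hu' m
      cases u' with
      | zero => simpa using hj0 m
      | succ u' =>
        intro hm
        exact h1.2 u' (by omega) m (by omega)
    · rw [show N + (u + 1) = 1 + (N + u) by omega]
      exact E.append (hE.mono (by omega)) h2

theorem hit_before (h : Cod w N T χ ℓ) {i : ℕ} (hi : i ≤ T 0) : Hit T i (T 0 - i) := by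
  refine ⟨⟨0, by omega⟩, ?_⟩
  intro u' hu' m hm
  have := h.mono.monotone (Nat.zero_le m)
  omega

theorem hit_in (h : Cod w N T χ ℓ) {m i : ℕ} (h1 : T m < i) (h2 : i ≤ T (m + 1)) :
    Hit T i (T (m + 1) - i) := by
  refine ⟨⟨m + 1, by omega⟩, ?_⟩
  intro u' hu' m' hm
  exact h.between (m := m) (i := i + u') (by omega) (by omega) m' hm

theorem hit_self {m : ℕ} : Hit T (T m) 0 :=
  ⟨⟨m, rfl⟩, fun u' hu' => absurd hu' (by omega)⟩

theorem exists_block (h : Cod w N T χ ℓ) {j : ℕ} (hj : T 0 ≤ j) :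
    ∃ m, T m ≤ j ∧ j < T (m + 1) := by
  by_contra hcon
  push Not at hcon
  have : ∀ m, T m ≤ j := by
    intro m
    induction m with
    | zero => exact hj
    | succ m ih => exact hcon m ih
  have h1 := this (j + 1)
  have h2 := h.mono.id_le (j + 1)
  simp only [id] at h2
  omega

theorem exists_types (h : Cod w N T χ ℓ)
    (hl : ∃ m m', w (T (m + 1) - 1) ≠ w (T (m' + 1) - 1)) :
    ∃ mA mB, χ mA = true ∧ χ mB = false ∧ w (T (mA + 1) - 1) ≠ w (T (mB + 1) - 1) := by
  obtain ⟨m, m', hne⟩ := hl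
  have hχ : χ m ≠ χ m' := by
    intro hh
    apply hne
    have hp := h.pos (χ m)
    have h1 := h.loop hh (ℓ (χ m) - 1) (by omega)
    have s1 := h.step m
    have s2 := h.step m'
    rw [← hh] at s2
    rw [s1, s2, show T m + ℓ (χ m) - 1 = T m + (ℓ (χ m) - 1) by omega,
      show T m' + ℓ (χ m) - 1 = T m' + (ℓ (χ m) - 1) by omega]
    exact h1
  cases hc : χ m
  · refine ⟨m', m, ?_, hc, hne.symm⟩
    cases hc' : χ m'
    · exact absurd (hc.trans hc'.symm) hχ
    · rfl
  · refine ⟨m, m', hc, ?_, hne⟩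
    cases hc' : χ m'
    · rfl
    · exact absurd (hc.trans hc'.symm) hχ

theorem count [Finite α] (h : Cod w N T χ ℓ)
    (hl : ∃ m m', w (T (m + 1) - 1) ≠ w (T (m' + 1) - 1)) {τ : ℕ} (hτ : τ ≤ T 0)
    (hτ' : ∀ i < τ, ∀ j, T 0 ≤ j → ¬ E w N i j) :
    τ + ℓ true + ℓ false ≤ p w N + 1 := by
  obtain ⟨mA, mB, hA, hB, hAB⟩ := h.exists_types hl
  have sA := h.step mA
  have sB := h.step mB
  rw [hA] at sA
  rw [hB] at sB
  have pA := h.pos true
  have pB := h.pos false
  have zA : T 0 ≤ T mA := h.mono.monotone (Nat.zero_le _)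
  have zB : T 0 ≤ T mB := h.mono.monotone (Nat.zero_le _)
  have hmAB : mA ≠ mB := by
    intro hh
    rw [hh, hB] at hA
    exact absurd hA (by decide)
  have hord : T (mA + 1) ≤ T mB ∨ T (mB + 1) ≤ T mA := by
    rcases lt_or_gt_of_ne hmAB with h1 | h1
    · left; exact h.mono.monotone (by omega)
    · right; exact h.mono.monotone (by omega)
  set S1 := Finset.range τ with hS1
  set S2 := Finset.Ico (T mA) (T (mA + 1)) with hS2
  set S3 := Finset.Ico (T mB + 1) (T (mB + 1)) with hS3
  have d12 : Disjoint S1 S2 := by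
    rw [Finset.disjoint_left]
    intro x hx hx'
    rw [hS1, Finset.mem_range] at hx
    rw [hS2, Finset.mem_Ico] at hx'
    omega
  have d123 : Disjoint (S1 ∪ S2) S3 := by
    rw [Finset.disjoint_left]
    intro x hx hx'
    rw [hS1, hS2, Finset.mem_union, Finset.mem_range, Finset.mem_Ico] at hx
    rw [hS3, Finset.mem_Ico] at hx'
    omega
  have hcard : ((S1 ∪ S2) ∪ S3).card = τ + ℓ true + (ℓ false - 1) := by
    rw [Finset.card_union_of_disjoint d123, Finset.card_union_of_disjoint d12, hS1, hS2, hS3,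
      Finset.card_range, Nat.card_Ico, Nat.card_Ico]
    omega
  have c11 : ∀ i ∈ S1, ∀ j ∈ S1, E w N i j → i = j := by
    intro i hi j hj hij
    rw [hS1, Finset.mem_range] at hi hj
    have h1 := h.hit_before (i := i) (by omega)
    have h2 := h.hit_before (i := j) (by omega)
    have := (h.hit_transfer hij h1).1.unique h2
    omega
  have c12 : ∀ i ∈ S1, ∀ j, T 0 ≤ j → E w N i j → False := by
    intro i hi j hj hij
    rw [hS1, Finset.mem_range] at hi
    exact hτ' i hi j hj hij
  have c22 : ∀ i ∈ S2, ∀ j ∈ S2, E w N i j → i = j := by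
    intro i hi j hj hij
    rw [hS2, Finset.mem_Ico] at hi hj
    rcases eq_or_lt_of_le hi.1 with hi1 | hi1
    · rcases eq_or_lt_of_le hj.1 with hj1 | hj1
      · omega
      · have h1 : Hit T i 0 := by rw [← hi1]; exact hit_self
        have h2 := h.hit_in (m := mA) (i := j) hj1 (by omega)
        have := (h.hit_transfer hij h1).1.unique h2
        omega
    · have h1 := h.hit_in (m := mA) (i := i) hi1 (by omega)
      rcases eq_or_lt_of_le hj.1 with hj1 | hj1
      · have h2 : Hit T j 0 := by rw [← hj1]; exact hit_self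
        have := (h.hit_transfer hij h1).1.unique h2
        omega
      · have h2 := h.hit_in (m := mA) (i := j) hj1 (by omega)
        have := (h.hit_transfer hij h1).1.unique h2
        omega
  have c33 : ∀ i ∈ S3, ∀ j ∈ S3, E w N i j → i = j := by
    intro i hi j hj hij
    rw [hS3, Finset.mem_Ico] at hi hj
    have h1 := h.hit_in (m := mB) (i := i) (by omega) (by omega)
    have h2 := h.hit_in (m := mB) (i := j) (by omega) (by omega)
    have := (h.hit_transfer hij h1).1.unique h2
    omega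
  have c23 : ∀ i ∈ S2, ∀ j ∈ S3, E w N i j → False := by
    intro i hi j hj hij
    rw [hS2, Finset.mem_Ico] at hi
    rw [hS3, Finset.mem_Ico] at hj
    have h2 := h.hit_in (m := mB) (i := j) (by omega) (by omega)
    rcases eq_or_lt_of_le hi.1 with hi1 | hi1
    · have h1 : Hit T i 0 := by rw [← hi1]; exact hit_self
      have := (h.hit_transfer hij h1).1.unique h2
      omega
    · have h1 := h.hit_in (m := mA) (i := i) hi1 (by omega)
      obtain ⟨h3, h4⟩ := h.hit_transfer hij h1
      have h5 := h3.unique h2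
      have h6 := h4 (T (mA + 1) - i - 1) (by omega)
      rw [show i + (T (mA + 1) - i - 1) = T (mA + 1) - 1 by omega,
        show j + (T (mA + 1) - i - 1) = T (mB + 1) - 1 by omega] at h6
      exact hAB h6
  have hinj : Set.InjOn (win w N) (((S1 ∪ S2) ∪ S3 : Finset ℕ) : Set ℕ) := by
    intro i hi j hj hij
    have hij' : E w N i j := E_iff.mpr hij
    have ge2 : ∀ x ∈ S2, T 0 ≤ x := fun x hx => by
      rw [hS2, Finset.mem_Ico] at hx; omega
    have ge3 : ∀ x ∈ S3, T 0 ≤ x := fun x hx => by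
      rw [hS3, Finset.mem_Ico] at hx; omega
    rw [Finset.mem_coe, Finset.mem_union, Finset.mem_union] at hi hj
    rcases hi with (hi | hi) | hi <;> rcases hj with (hj | hj) | hj
    · exact c11 i hi j hj hij'
    · exact (c12 i hi j (ge2 j hj) hij').elim
    · exact (c12 i hi j (ge3 j hj) hij').elim
    · exact (c12 j hj i (ge2 i hi) hij'.symm).elim
    · exact c22 i hi j hj hij'
    · exact (c23 i hi j hj hij').elim
    · exact (c12 j hj i (ge3 i hi) hij'.symm).elim
    · exact (c23 j hj i hi hij'.symm).elim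
    · exact c33 i hi j hj hij'
  have hle : ((((S1 ∪ S2) ∪ S3 : Finset ℕ) : Set ℕ)).ncard ≤ (Set.range (win w N)).ncard := by
    have hmap : Set.MapsTo (win w N) ((((S1 ∪ S2) ∪ S3 : Finset ℕ) : Set ℕ))
        (Set.range (win w N)) := fun i _ => Set.mem_range_self i
    exact Set.ncard_le_ncard_of_injOn (win w N) hmap hinj (finite_range w N)
  rw [Set.ncard_coe_finset, hcard] at hle
  show τ + ℓ true + ℓ false ≤ (Set.range (win w N)).ncard + 1
  omega

/-- the prefix structure before the first occurrence of the special window -/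
theorem prefix_struct (h : Cod w N T χ ℓ) :
    ∃ τ e c, T 0 = τ + e ∧ (∀ i < τ, ∀ j, T 0 ≤ j → ¬ E w N i j) ∧ e < ℓ c ∧
      (∀ m, χ m = c → E w (N + e) τ (T (m + 1) - e)) := by
  classical
  have hex : ∃ i, ∃ j, T 0 ≤ j ∧ E w N i j := ⟨T 0, T 0, le_rfl, E.refl _ _ _⟩
  set τ := Nat.find hex with hτ
  obtain ⟨j, hj, hE⟩ := Nat.find_spec hex
  have hτle : τ ≤ T 0 := Nat.find_min' hex ⟨T 0, le_rfl, E.refl _ _ _⟩
  have hmin : ∀ i < τ, ∀ j, T 0 ≤ j → ¬ E w N i j := by
    intro i hi j hj hij
    exact Nat.find_min hex hi ⟨j, hj, hij⟩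
  rcases eq_or_lt_of_le hτle with heq | hlt
  · refine ⟨τ, 0, χ 0, by omega, hmin, h.pos _, ?_⟩
    intro m _
    rw [heq]
    simpa using h.same 0 (m + 1)
  · obtain ⟨m0, hm1, hm2⟩ := h.exists_block hj
    have hit1 := h.hit_before hτle
    obtain ⟨hit2, hE2⟩ := h.hit_transfer hE hit1
    have hne : T m0 ≠ j := by
      intro hh
      subst hh
      have := hit2.unique hit_self
      omega
    have hit3 := h.hit_in (m := m0) (i := j) (lt_of_le_of_ne hm1 hne) (by omega)
    have he := hit2.unique hit3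
    have s0 := h.step m0
    refine ⟨τ, T 0 - τ, χ m0, by omega, hmin, ?_, ?_⟩
    · have : T m0 < j := lt_of_le_of_ne hm1 hne
      omega
    · intro m hm
      refine hE2.trans ?_
      have hlt' : T m0 < j := lt_of_le_of_ne hm1 hne
      have h1 := h.loop hm.symm
      have h2 : E w (N + (T 0 - τ)) (T m0 + (ℓ (χ m0) - (T 0 - τ)))
          (T m + (ℓ (χ m0) - (T 0 - τ))) := by
        apply E.shift
        refine h1.mono ?_
        omega
      have s1 := h.step m
      rw [hm] at s1
      rw [show T m0 + (ℓ (χ m0) - (T 0 - τ)) = j by omega,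
        show T m + (ℓ (χ m0) - (T 0 - τ)) = T (m + 1) - (T 0 - τ) by omega] at h2
      exact h2

end Cod

end Pool.Agent.H43R2.Cplx
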