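import Pool.Agent.H43R2.Cplx.Ineq

namespace Pool.Agent.H43R2.Cplx

open Filter

variable {α : Type*}

theorem p_mono [Finite α] (w : ℕ → α) (n : ℕ) : p w n ≤ p w (n + 1) := by
  have himg : res '' (Set.range (win w (n + 1))) = Set.range (win w n) := by
    apply Set.Subset.antisymm
    · rintro y ⟨x, ⟨i, rfl⟩, rfl⟩
      exact ⟨i, rfl⟩
    · rintro y ⟨i, rfl⟩
      exact ⟨win w (n + 1) i, ⟨i, rfl⟩, rfl⟩
  have := Set.ncard_image_le (f := res) (finite_range w (n + 1))
  rw [himg] at this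
  exact this

/-- repetition condition: words of irrationality exponent two -/
def Rep (w : ℕ → α) : Prop :=
  ∀ ε : ℝ, 0 < ε → ∃ K : ℝ, ∀ i j n : ℕ, i < j → E w n i j → (n : ℝ) ≤ (1 + ε) * j + K

theorem Rep.np {w : ℕ → α} (h : Rep w) : NP w := by
  intro i j hij
  obtain ⟨K, hK⟩ := h 1 one_pos
  obtain ⟨n, hn⟩ := exists_nat_gt ((1 + 1) * (j : ℝ) + K)
  exact ⟨n, fun hE => absurd (hK i j n hij hE) (not_le.mpr hn)⟩

theorem stepA [Finite α] {w : ℕ → α} (hw : Rep w) {c : ℝ} (hc1 : 1 ≤ c) (hc : c < 5 / 4) :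
    ∃ n0 : ℕ, ∀ n, n0 ≤ n → p w (n + 1) ≤ p w n + 1 → c * (n + 1) < p w n := by
  obtain ⟨K0, hK0⟩ := hw ((5 - 4 * c) / 80) (by linarith)
  set ε := (5 - 4 * c) / 80 with hε
  have hεpos : 0 < ε := by rw [hε]; linarith
  set K := max K0 0 with hKdef
  have hK : ∀ i j n : ℕ, i < j → E w n i j → (n : ℝ) ≤ (1 + ε) * j + K := by
    intro i j n hij hE
    have := hK0 i j n hij hE
    have h2 := le_max_left K0 0
    linarith
  have hKnn : 0 ≤ K := le_max_right _ _
  obtain ⟨n0, hn0⟩ := exists_nat_gt ((4 * c + 4 + 80 * ε + 4 * K + 4 + K + 100) / (40 * ε))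
  refine ⟨n0, fun n hn hp => ?_⟩
  by_contra hcon
  push Not at hcon
  obtain ⟨T, χ, ℓ, hcod⟩ := exists_cod hw.np hp
  obtain ⟨N, T', χ', hN, hcod', hpN, hl⟩ := hcod.exists_bisp
  -- bound of P
  have hnN : (n : ℝ) ≤ N := by exact_mod_cast hN
  have hpN' : (p w N : ℝ) + n ≤ p w n + N := by exact_mod_cast hpN
  have hP : (p w N : ℝ) ≤ c * (N + 1) := by nlinarith
  have hn0' : (4 * c + 4 + 80 * ε + 4 * K + 4 + K + 100) / (40 * ε) < N := by
    have : (n0 : ℝ) ≤ n := by exact_mod_cast hn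
    linarith
  rw [div_lt_iff₀ (by positivity)] at hn0'
  set J := 10 * N + 20 with hJ
  set Δ := ⌈ε * J + K⌉₊ with hΔ
  have hΔle : (Δ : ℝ) ≤ ε * (10 * N + 20) + K + 1 := by
    have h1 := Nat.ceil_lt_add_one (show 0 ≤ ε * J + K by positivity)
    have h2 : (J : ℝ) = 10 * N + 20 := by rw [hJ]; push_cast; ring
    rw [← hΔ, h2] at h1
    linarith
  have hD : ∀ i j n : ℕ, i < j → j ≤ J → E w n i j → n ≤ j + Δ := by
    intro i j m hij hj hE
    have h1 := hK i j m hij hE
    have h2 : (j : ℝ) ≤ J := by exact_mod_cast hj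
    have h3 : ε * J + K ≤ Δ := Nat.le_ceil _
    have h4 : (m : ℝ) ≤ j + Δ := by nlinarith
    exact_mod_cast h4
  have hε1 : ε ≤ 1 / 80 := by rw [hε]; linarith
  have hcε : c = 5 / 4 - 20 * ε := by rw [hε]; ring
  have hNnn : (0 : ℝ) ≤ N := Nat.cast_nonneg _
  have hεN : ε * N ≤ 1 / 80 * N := mul_le_mul_of_nonneg_right hε1 hNnn
  have hP2 : (p w N : ℝ) ≤ 5 / 4 * N + 2 - 20 * (ε * N) := by
    rw [hcε] at hP; nlinarith
  have hJ' : 6 * p w N + 6 + Δ ≤ J := by
    have : (6 * p w N + 6 + Δ : ℝ) ≤ 10 * N + 20 := by nlinarith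
    have h2 : (J : ℝ) = 10 * N + 20 := by rw [hJ]; push_cast; ring
    rw [← h2] at this
    exact_mod_cast this
  have hkey := hcod'.key_ineq hl hD hJ'
  have hkey' : (5 : ℝ) * N ≤ 4 * p w N + 4 + 4 * Δ := by exact_mod_cast hkey
  nlinarith

theorem liminf_of_rep [Finite α] {w : ℕ → α} (hw : Rep w) {c : ℝ} (hc : c < 5 / 4) :
    ∀ᶠ n : ℕ in atTop, c * n < p w n := by
  wlog hc1 : 1 ≤ c generalizing c with H
  · have h1 := H (c := 1) (by norm_num) le_rfl
    filter_upwards [h1] with n hn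
    have h0 : (0 : ℝ) ≤ n := Nat.cast_nonneg n
    push Not at hc1
    nlinarith
  obtain ⟨n0, hn0⟩ := stepA hw hc1 hc
  have hmono : ∀ n, (p w n : ℝ) ≤ p w (n + 1) := fun n => by exact_mod_cast p_mono w n
  have hstep : ∀ n, n0 ≤ n → 0 < (p w n : ℝ) - c * n → 0 < (p w (n + 1) : ℝ) - c * (n + 1 : ℕ) := by
    intro n hn hpos
    push_cast
    by_cases h : p w (n + 1) ≤ p w n + 1
    · have := hn0 n hn h
      have := hmono n
      linarith
    · push Not at h
      have h' : (p w n : ℝ) + 2 ≤ p w (n + 1) := by exact_mod_cast h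
      nlinarith
  have hex : ∃ n, n0 ≤ n ∧ 0 < (p w n : ℝ) - c * n := by
    by_contra hcon
    push Not at hcon
    have hgrow : ∀ k : ℕ, (p w n0 : ℝ) - c * n0 + 3 / 4 * k ≤ p w (n0 + k) - c * (n0 + k : ℕ) := by
      intro k
      induction k with
      | zero => simp
      | succ k ih =>
        have h1 := hcon (n0 + k + 1) (by omega)
        have hnot : ¬ p w (n0 + k + 1) ≤ p w (n0 + k) + 1 := by
          intro h
          have h2 := hn0 (n0 + k) (by omega) h
          have h3 := hmono (n0 + k)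
          push_cast at h1 h2
          linarith
        push Not at hnot
        have h' : (p w (n0 + k) : ℝ) + 2 ≤ p w (n0 + k + 1) := by exact_mod_cast hnot
        rw [show n0 + (k + 1) = n0 + k + 1 by omega]
        push_cast at ih ⊢
        linarith
    obtain ⟨k, hk⟩ := exists_nat_gt ((-((p w n0 : ℝ) - c * n0)) / (3 / 4))
    have h1 := hgrow k
    have h2 := hcon (n0 + k) (by omega)
    rw [div_lt_iff₀ (by norm_num)] at hk
    linarith
  obtain ⟨n1, hn1, hpos1⟩ := hex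
  have hall : ∀ n, n1 ≤ n → 0 < (p w n : ℝ) - c * n := by
    intro n hn
    induction n, hn using Nat.le_induction with
    | base => exact hpos1
    | succ n hn ih => exact hstep n (by omega) ih
  filter_upwards [eventually_ge_atTop n1] with n hn
  have := hall n hn
  linarith

end Pool.Agent.H43R2.Cplx
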