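import Pool.Agent.H43R2.Cplx.Ineq
import Pool.Agent.H43R2.Cplx.Liminf

namespace Pool.Agent.H43R2.Cplx

variable {α : Type*}

theorem p_succ_ge_two [Finite α] {w : ℕ → α} {n i₁ i₁' i₂ i₂' : ℕ}
    (h1 : E w n i₁ i₁') (h1' : w (i₁ + n) ≠ w (i₁' + n))
    (h2 : E w n i₂ i₂') (h2' : w (i₂ + n) ≠ w (i₂' + n)) (h : ¬ E w n i₁ i₂) :
    p w n + 2 ≤ p w (n + 1) := by
  set X := Set.range (win w (n + 1)) with hX
  set Y := Set.range (win w n) with hY
  have hXf : X.Finite := finite_range w (n + 1)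
  have hYf : Y.Finite := finite_range w n
  have hne : win w (n + 1) i₁' ≠ win w (n + 1) i₂' := by
    intro hh
    have hE : E w n i₁' i₂' := (E_iff.mpr hh).mono (by omega)
    exact h ((h1.trans hE).trans h2.symm)
  have n1 : win w (n + 1) i₁ ≠ win w (n + 1) i₁' := fun hh => h1' (E_iff.mpr hh).next
  have n2 : win w (n + 1) i₂ ≠ win w (n + 1) i₂' := fun hh => h2' (E_iff.mpr hh).next
  have n3 : win w (n + 1) i₁ ≠ win w (n + 1) i₂' := by
    intro hh
    have hE : E w n i₁ i₂' := (E_iff.mpr hh).mono (by omega)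
    exact h (hE.trans h2.symm)
  have n4 : win w (n + 1) i₂ ≠ win w (n + 1) i₁' := by
    intro hh
    have hE : E w n i₂ i₁' := (E_iff.mpr hh).mono (by omega)
    exact h ((hE.trans h1.symm).symm)
  set S := (X \ {win w (n + 1) i₁'}) \ {win w (n + 1) i₂'} with hS
  have hsurj : Y ⊆ res '' S := by
    rintro y ⟨i, rfl⟩
    by_cases c1 : win w (n + 1) i = win w (n + 1) i₁'
    · refine ⟨win w (n + 1) i₁, ⟨⟨⟨i₁, rfl⟩, n1⟩, n3⟩, ?_⟩
      rw [res_win, E_iff.mp h1]
      exact (congrArg res c1).symm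
    · by_cases c2 : win w (n + 1) i = win w (n + 1) i₂'
      · refine ⟨win w (n + 1) i₂, ⟨⟨⟨i₂, rfl⟩, n4⟩, n2⟩, ?_⟩
        rw [res_win, E_iff.mp h2]
        exact (congrArg res c2).symm
      · exact ⟨win w (n + 1) i, ⟨⟨⟨i, rfl⟩, c1⟩, c2⟩, rfl⟩
  have hSf : S.Finite := (hXf.subset Set.sdiff_subset).subset Set.sdiff_subset
  have c1 : Y.ncard ≤ S.ncard :=
    (Set.ncard_le_ncard hsurj (hSf.image res)).trans (Set.ncard_image_le hSf)
  have m1 : win w (n + 1) i₁' ∈ X := Set.mem_range_self i₁'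
  have m2 : win w (n + 1) i₂' ∈ X \ {win w (n + 1) i₁'} :=
    ⟨Set.mem_range_self i₂', fun hh => hne hh.symm⟩
  have c2 : S.ncard = (X \ {win w (n + 1) i₁'}).ncard - 1 :=
    Set.ncard_sdiff_singleton_of_mem m2
  have c3 : (X \ {win w (n + 1) i₁'}).ncard = X.ncard - 1 :=
    Set.ncard_sdiff_singleton_of_mem m1
  have c4 : 0 < (X \ {win w (n + 1) i₁'}).ncard :=
    Set.ncard_pos (hXf.subset Set.sdiff_subset) |>.mpr ⟨_, m2⟩
  show Y.ncard + 2 ≤ X.ncard
  omega

theorem p_succ_ge_one [Finite α] {w : ℕ → α} {n i₁ i₁' : ℕ}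
    (h1 : E w n i₁ i₁') (h1' : w (i₁ + n) ≠ w (i₁' + n)) :
    p w n + 1 ≤ p w (n + 1) := by
  set X := Set.range (win w (n + 1)) with hX
  set Y := Set.range (win w n) with hY
  have hXf : X.Finite := finite_range w (n + 1)
  have n1 : win w (n + 1) i₁ ≠ win w (n + 1) i₁' := fun hh => h1' (E_iff.mpr hh).next
  set S := (X \ {win w (n + 1) i₁'}) with hS
  have hsurj : Y ⊆ res '' S := by
    rintro y ⟨i, rfl⟩
    by_cases c1 : win w (n + 1) i = win w (n + 1) i₁'
    · refine ⟨win w (n + 1) i₁, ⟨⟨i₁, rfl⟩, n1⟩, ?_⟩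
      rw [res_win, E_iff.mp h1]
      exact (congrArg res c1).symm
    · exact ⟨win w (n + 1) i, ⟨⟨i, rfl⟩, c1⟩, rfl⟩
  have hSf : S.Finite := (hXf.subset Set.sdiff_subset)
  have c1 : Y.ncard ≤ S.ncard :=
    (Set.ncard_le_ncard hsurj (hSf.image res)).trans (Set.ncard_image_le hSf)
  have m1 : win w (n + 1) i₁' ∈ X := Set.mem_range_self i₁'
  have c3 : S.ncard = X.ncard - 1 := Set.ncard_sdiff_singleton_of_mem m1
  have c4 : 0 < X.ncard := Set.ncard_pos hXf |>.mpr ⟨_, m1⟩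
  show Y.ncard + 1 ≤ X.ncard
  omega

theorem NP.p_succ [Finite α] {w : ℕ → α} (hw : NP w) (n : ℕ) : p w n + 1 ≤ p w (n + 1) := by
  have : ¬ ∀ i j, E w n i j → E w (n + 1) i j := fun h =>
    noDet hw n 0 (fun i j _ _ hij => h i j hij)
  push Not at this
  obtain ⟨i, j, h1, h2⟩ := this
  exact p_succ_ge_one h1 (fun hh => h2 (h1.succ hh))

theorem NP.p_add [Finite α] {w : ℕ → α} (hw : NP w) (n t : ℕ) : p w n + t ≤ p w (n + t) := by
  induction t with
  | zero => simp
  | succ t ih =>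
    have := hw.p_succ (n + t)
    rw [show n + (t + 1) = n + t + 1 by omega]
    omega

theorem p_add_two [Finite α] {w : ℕ → α} {n t : ℕ}
    (h : ∀ s < t, p w (n + s) + 2 ≤ p w (n + s + 1)) : p w n + 2 * t ≤ p w (n + t) := by
  induction t with
  | zero => simp
  | succ t ih =>
    have h1 := ih (fun s hs => h s (by omega))
    have h2 := h t (by omega)
    rw [show n + (t + 1) = n + t + 1 by omega]
    omega

namespace Cod

variable {w : ℕ → α} {N : ℕ} {T : ℕ → ℕ} {χ : ℕ → Bool} {ℓ : Bool → ℕ}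

theorem last_ne (h : Cod w N T χ ℓ) (hl : ∃ m m', w (T (m + 1) - 1) ≠ w (T (m' + 1) - 1))
    {m m' : ℕ} (hm : χ m ≠ χ m') : w (T (m + 1) - 1) ≠ w (T (m' + 1) - 1) := by
  obtain ⟨mA, mB, hA, hB, hAB⟩ := h.exists_types hl
  have key : ∀ m m', χ m = χ m' → w (T (m + 1) - 1) = w (T (m' + 1) - 1) := by
    intro m m' hh
    have hp := h.pos (χ m)
    have h1 := h.loop hh (ℓ (χ m) - 1) (by omega)
    have s1 := h.step m
    have s2 := h.step m'
    rw [← hh] at s2
    rw [s1, s2, show T m + ℓ (χ m) - 1 = T m + (ℓ (χ m) - 1) by omega,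
      show T m' + ℓ (χ m) - 1 = T m' + (ℓ (χ m) - 1) by omega]
    exact h1
  cases h1 : χ m <;> cases h2 : χ m'
  · exact absurd (h1.trans h2.symm) hm
  · rw [key m mB (h1.trans hB.symm), key m' mA (h2.trans hA.symm)]
    exact hAB.symm
  · rw [key m mA (h1.trans hA.symm), key m' mB (h2.trans hB.symm)]
    exact hAB
  · exact absurd (h1.trans h2.symm) hm

theorem next_ne (h : Cod w N T χ ℓ) {m m' : ℕ} (hm : χ m ≠ χ m') : w (T m + N) ≠ w (T m' + N) :=
  fun hh => hm ((h.next m m').mpr hh)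

/-- backwards comparison: if the types of the `r` loops before `m` and `m'` agree, the windows
ending there agree -/
theorem back (h : Cod w N T χ ℓ) {m m' r : ℕ} (hrm : r ≤ m) (hrm' : r ≤ m')
    (hs : ∀ s < r, χ (m - r + s) = χ (m' - r + s)) :
    E w (T m - T (m - r) + N) (T (m - r)) (T (m' - r)) ∧
      T m' - T (m' - r) = T m - T (m - r) := by
  have := h.loops (m := m - r) (m' := m' - r) (r := r) hs
  rwa [show m - r + r = m by omega, show m' - r + r = m' by omega] at this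

/-- two right special windows of length `N + μ ℓ(c) + t` -/
theorem branch [Finite α] (h : Cod w N T χ ℓ)
    (hl : ∃ m m', w (T (m + 1) - 1) ≠ w (T (m' + 1) - 1)) {c : Bool} {μ i j u K t : ℕ}
    (hi : 1 ≤ i) (hi1 : χ (i - 1) = !c) (hi2 : ∀ s < μ, χ (i + s) = c) (hi3 : χ (i + μ) = !c)
    (hj : 1 ≤ j) (hj1 : χ (j - 1) = !c) (hj2 : ∀ s < μ + 1, χ (j + s) = c)
    (hK : μ + 2 ≤ K) (hu1 : ∀ s < K, χ (u + s) = c) (hu2 : χ (u + K) = !c)
    (ht : 1 ≤ t) (ht1 : t ≤ ℓ (!c)) (ht2 : t ≤ (K - 1 - μ) * ℓ c) :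
    p w (N + μ * ℓ c + t) + 2 ≤ p w (N + μ * ℓ c + t + 1) := by
  have hcc : ∀ x : Bool, x ≠ !x := by decide
  -- positions
  have ei : T (i + μ) = T i + μ * ℓ c := h.run hi2
  have ej : T (j + μ) = T j + μ * ℓ c := h.run (fun s hs => hj2 s (by omega))
  have si : T i = T (i - 1) + ℓ (!c) := by
    have := h.step (i - 1)
    rwa [show i - 1 + 1 = i by omega, hi1] at this
  have sj : T j = T (j - 1) + ℓ (!c) := by
    have := h.step (j - 1)
    rwa [show j - 1 + 1 = j by omega, hj1] at this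
  -- class 1 : `i` and `j`
  have E1 : E w (N + μ * ℓ c + t) (T i - t) (T j - t) := by
    have h1 := h.loops (m := i - 1) (m' := j - 1) (r := μ + 1) (fun s hs => by
      cases s with
      | zero => rw [add_zero, add_zero, hi1, hj1]
      | succ s =>
        rw [show i - 1 + (s + 1) = i + s by omega, show j - 1 + (s + 1) = j + s by omega,
          hi2 s (by omega), hj2 s (by omega)])
    rw [show i - 1 + (μ + 1) = i + μ by omega] at h1
    have h2 : E w (N + μ * ℓ c + t) (T (i - 1) + (ℓ (!c) - t)) (T (j - 1) + (ℓ (!c) - t)) := by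
      apply E.shift
      refine h1.1.mono ?_
      omega
    rwa [show T (i - 1) + (ℓ (!c) - t) = T i - t by omega,
      show T (j - 1) + (ℓ (!c) - t) = T j - t by omega] at h2
  have N1 : w (T i - t + (N + μ * ℓ c + t)) ≠ w (T j - t + (N + μ * ℓ c + t)) := by
    rw [show T i - t + (N + μ * ℓ c + t) = T (i + μ) + N by omega,
      show T j - t + (N + μ * ℓ c + t) = T (j + μ) + N by omega]
    apply h.next_ne
    rw [hi3, hj2 μ (by omega)]
    exact (hcc c).symm
  -- class 2 : `u + K - 1` and `u + K`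
  have runu : ∀ r ≤ K, T (u + r) = T u + r * ℓ c := fun r hr =>
    h.run (fun s hs => hu1 s (by omega))
  have pc : 0 < ℓ c := h.pos c
  have eu0 := runu (K - 1) (by omega)
  have eu1 := runu K le_rfl
  have hK1 : K * ℓ c = (K - 1) * ℓ c + ℓ c := by
    obtain ⟨k, rfl⟩ : ∃ k, K = k + 1 := ⟨K - 1, by omega⟩
    rw [show k + 1 - 1 = k by omega]; ring
  have hK2 : (K - 1) * ℓ c = μ * ℓ c + (K - 1 - μ) * ℓ c := by
    rw [← Nat.add_mul]; congr 1; omega
  have E2 : E w (N + μ * ℓ c + t) (T (u + (K - 1)) - (μ * ℓ c + t))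
      (T (u + K) - (μ * ℓ c + t)) := by
    have h1 := h.loops (m := u) (m' := u + 1) (r := K - 1) (fun s hs => by
      rw [hu1 s (by omega), show u + 1 + s = u + (s + 1) by omega, hu1 (s + 1) (by omega)])
    have e1 : T (u + 1) = T u + ℓ c := by
      have := runu 1 (by omega); rwa [one_mul] at this
    have h2 : E w (N + μ * ℓ c + t) (T u + ((K - 1) * ℓ c - (μ * ℓ c + t)))
        (T (u + 1) + ((K - 1) * ℓ c - (μ * ℓ c + t))) := by
      apply E.shift
      refine h1.1.mono ?_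
      omega
    rwa [show T u + ((K - 1) * ℓ c - (μ * ℓ c + t)) = T (u + (K - 1)) - (μ * ℓ c + t) by omega,
      show T (u + 1) + ((K - 1) * ℓ c - (μ * ℓ c + t)) = T (u + K) - (μ * ℓ c + t) by omega] at h2
  have N2 : w (T (u + (K - 1)) - (μ * ℓ c + t) + (N + μ * ℓ c + t)) ≠
      w (T (u + K) - (μ * ℓ c + t) + (N + μ * ℓ c + t)) := by
    rw [show T (u + (K - 1)) - (μ * ℓ c + t) + (N + μ * ℓ c + t) = T (u + (K - 1)) + N by omega,
      show T (u + K) - (μ * ℓ c + t) + (N + μ * ℓ c + t) = T (u + K) + N by omega]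
    apply h.next_ne
    rw [hu1 (K - 1) (by omega), hu2]
    exact hcc c
  refine p_succ_ge_two E1 N1 E2 N2 ?_
  intro hE
  have h1 := hE (t - 1) (by omega)
  have e2 := runu (K - 1 - μ) (by omega)
  rw [show T i - t + (t - 1) = T i - 1 by omega,
    show T (u + (K - 1)) - (μ * ℓ c + t) + (t - 1) = T (u + (K - 1 - μ)) - 1 by omega] at h1
  have hne : χ (i - 1) ≠ χ (u + (K - 1 - μ) - 1) := by
    rw [hi1, show u + (K - 1 - μ) - 1 = u + (K - 1 - μ - 1) by omega, hu1 _ (by omega)]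
    exact (hcc c).symm
  have h2 := h.last_ne hl hne
  rw [show i - 1 + 1 = i by omega,
    show u + (K - 1 - μ) - 1 + 1 = u + (K - 1 - μ) by omega] at h2
  exact h2 h1

/-- two right special windows of length `N + t` coming from the first occurrence -/
theorem branch0 [Finite α] (h : Cod w N T χ ℓ)
    (hl : ∃ m m', w (T (m + 1) - 1) ≠ w (T (m' + 1) - 1)) {τ e q t : ℕ}
    (hT0 : T 0 = τ + e) (hpre : E w (N + e) τ (T 1 - e)) (hA : χ 1 = !(χ 0))
    (hq : 2 ≤ q) (hB : ∀ s < q, χ (1 + s) = !(χ 0)) (hAq : χ (1 + q) = χ 0)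
    (ht : 1 ≤ t) (ht1 : t ≤ e) (he : e < ℓ (χ 0)) (ht2 : t ≤ (q - 1) * ℓ (!(χ 0))) :
    p w (N + t) + 2 ≤ p w (N + t + 1) := by
  have hcc : ∀ x : Bool, x ≠ !x := by decide
  set c := !(χ 0) with hc
  have hc' : χ 0 = !c := by rw [hc]; simp
  have runu : ∀ r ≤ q, T (1 + r) = T 1 + r * ℓ c := fun r hr =>
    h.run (fun s hs => hB s (by omega))
  have pc : 0 < ℓ c := h.pos c
  have s1 : T 1 = T 0 + ℓ (χ 0) := h.step 0
  have eu0 := runu (q - 1) (by omega)
  have eu1 := runu q le_rfl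
  have hK1 : q * ℓ c = (q - 1) * ℓ c + ℓ c := by
    obtain ⟨k, rfl⟩ : ∃ k, q = k + 1 := ⟨q - 1, by omega⟩
    rw [show k + 1 - 1 = k by omega]; ring
  have E1 : E w (N + t) (T 0 - t) (T 1 - t) := by
    have h2 : E w (N + t) (τ + (e - t)) (T 1 - e + (e - t)) := by
      apply E.shift
      refine hpre.mono ?_
      omega
    rwa [show τ + (e - t) = T 0 - t by omega, show T 1 - e + (e - t) = T 1 - t by omega] at h2
  have N1 : w (T 0 - t + (N + t)) ≠ w (T 1 - t + (N + t)) := by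
    rw [show T 0 - t + (N + t) = T 0 + N by omega, show T 1 - t + (N + t) = T 1 + N by omega]
    apply h.next_ne
    rw [hA, hc']
    exact (hcc c).symm
  have E2 : E w (N + t) (T (1 + (q - 1)) - t) (T (1 + q) - t) := by
    have h1 := h.loops (m := 1) (m' := 1 + 1) (r := q - 1) (fun s hs => by
      rw [hB s (by omega), show 1 + 1 + s = 1 + (s + 1) by omega, hB (s + 1) (by omega)])
    have e1 : T (1 + 1) = T 1 + ℓ c := by
      have := runu 1 (by omega); rwa [one_mul] at this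
    have h2 : E w (N + t) (T 1 + ((q - 1) * ℓ c - t)) (T (1 + 1) + ((q - 1) * ℓ c - t)) := by
      apply E.shift
      refine h1.1.mono ?_
      omega
    rwa [show T 1 + ((q - 1) * ℓ c - t) = T (1 + (q - 1)) - t by omega,
      show T (1 + 1) + ((q - 1) * ℓ c - t) = T (1 + q) - t by omega] at h2
  have N2 : w (T (1 + (q - 1)) - t + (N + t)) ≠ w (T (1 + q) - t + (N + t)) := by
    rw [show T (1 + (q - 1)) - t + (N + t) = T (1 + (q - 1)) + N by omega,
      show T (1 + q) - t + (N + t) = T (1 + q) + N by omega]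
    apply h.next_ne
    rw [hB (q - 1) (by omega), hAq, hc']
    exact hcc c
  refine p_succ_ge_two (E1.symm) (fun hh => N1 hh.symm) E2 N2 ?_
  intro hE
  have h1 := hE (t - 1) (by omega)
  rw [show T 1 - t + (t - 1) = T 1 - 1 by omega,
    show T (1 + (q - 1)) - t + (t - 1) = T (1 + (q - 1)) - 1 by omega] at h1
  have hne : χ 0 ≠ χ (q - 1) := by
    rw [show q - 1 = 1 + (q - 2) by omega, hB _ (by omega), hc']
    exact (hcc c).symm
  have h2 := h.last_ne hl hne
  rw [show 0 + 1 = 1 by omega, show q - 1 + 1 = 1 + (q - 1) by omega] at h2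
  exact h2 h1

end Cod

end Pool.Agent.H43R2.Cplx
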