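import Pool.Agent.H43R2.Cplx.Basic

namespace Pool.Agent.H43R2.Cplx

variable {α : Type*}

/-- Coding of a word by the two return loops at its unique right special window of length `N`:
`T 0 < T 1 < …` are the occurrences of that window, `χ m` is the type of the letter following the
occurrence `T m`, and the gap `T (m+1) - T m` is `ℓ (χ m)`. -/
structure Cod (w : ℕ → α) (N : ℕ) (T : ℕ → ℕ) (χ : ℕ → Bool) (ℓ : Bool → ℕ) : Prop where
  pos : ∀ c, 0 < ℓ c
  step : ∀ m, T (m + 1) = T m + ℓ (χ m)
  same : ∀ m m', E w N (T m) (T m')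
  cov : ∀ i, E w N i (T 0) → ∃ m, T m = i
  next : ∀ m m', χ m = χ m' ↔ w (T m + N) = w (T m' + N)
  uniq : ∀ i j, E w N i j → w (i + N) ≠ w (j + N) → ∃ m, T m = i
  inf : ∀ c M, ∃ m, M ≤ m ∧ χ m = c

namespace Cod

variable {w : ℕ → α} {N : ℕ} {T : ℕ → ℕ} {χ : ℕ → Bool} {ℓ : Bool → ℕ}

theorem mono (h : Cod w N T χ ℓ) : StrictMono T :=
  strictMono_nat_of_lt_succ fun m => by
    rw [h.step m]; have := h.pos (χ m); omega

theorem between (h : Cod w N T χ ℓ) {m i : ℕ} (h1 : T m < i) (h2 : i < T (m + 1)) (m' : ℕ) :
    T m' ≠ i := by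
  intro h3
  subst h3
  have a := h.mono.lt_iff_lt.mp h1
  have b := h.mono.lt_iff_lt.mp h2
  omega

theorem loop (h : Cod w N T χ ℓ) {m m' : ℕ} (hm : χ m = χ m') :
    E w (ℓ (χ m) + N) (T m) (T m') := by
  have key : ∀ t, t < ℓ (χ m) → E w (N + 1 + t) (T m) (T m') := by
    intro t
    induction t with
    | zero => intro _; exact (h.same m m').succ ((h.next m m').mp hm)
    | succ t ih =>
      intro ht
      have h1 := ih (by omega)
      rw [show N + 1 + (t + 1) = N + 1 + t + 1 by omega]
      apply h1.succ
      by_contra hne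
      have h2 : E w N (T m + (1 + t)) (T m' + (1 + t)) := by
        apply E.shift
        rw [show N + (1 + t) = N + 1 + t by omega]; exact h1
      obtain ⟨m'', hm''⟩ := h.uniq (T m + (1 + t)) (T m' + (1 + t)) h2 (by
        rw [show T m + (1 + t) + N = T m + (N + 1 + t) by omega,
          show T m' + (1 + t) + N = T m' + (N + 1 + t) by omega]; exact hne)
      exact h.between (m := m) (by omega) (by rw [h.step m]; omega) m'' hm''
  have hp := h.pos (χ m)
  have := key (ℓ (χ m) - 1) (by omega)
  rw [show N + 1 + (ℓ (χ m) - 1) = ℓ (χ m) + N by omega] at this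
  exact this

/-- types agree for `r` steps: the windows agree on the sum of the loops plus `N` -/
theorem loops (h : Cod w N T χ ℓ) {m m' r : ℕ} (hm : ∀ s < r, χ (m + s) = χ (m' + s)) :
    E w (T (m + r) - T m + N) (T m) (T m') ∧ T (m' + r) - T m' = T (m + r) - T m := by
  induction r with
  | zero => simpa using h.same m m'
  | succ r ih =>
    obtain ⟨h1, h2⟩ := ih (fun s hs => hm s (by omega))
    have hr := hm r (by omega)
    have h3 := h.loop hr
    have e1 : T (m + (r + 1)) = T (m + r) + ℓ (χ (m + r)) := h.step (m + r)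
    have e2 : T (m' + (r + 1)) = T (m' + r) + ℓ (χ (m' + r)) := h.step (m' + r)
    have l1 : T m ≤ T (m + r) := h.mono.monotone (by omega)
    have l2 : T m' ≤ T (m' + r) := h.mono.monotone (by omega)
    refine ⟨?_, ?_⟩
    · rw [show T (m + (r + 1)) - T m + N = (T (m + r) - T m) + (ℓ (χ (m + r)) + N) by omega]
      refine E.append (h1.mono (by omega)) ?_
      rw [show T m + (T (m + r) - T m) = T (m + r) by omega,
        show T m' + (T (m + r) - T m) = T (m' + r) by omega]
      exact h3
    · rw [e1, e2, hr]
      rw [hr] at e1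
      omega

end Cod

/-- A Fine–Wilf type statement. -/
theorem fineWilf (f : ℕ → α) : ∀ s a b N : ℕ, a + b ≤ s → 0 < a → 0 < b → a + b ≤ N + 1 →
    (∀ k, k + a < N → f k = f (k + a)) → (∀ k, k + b < N → f k = f (k + b)) →
    f (N - a) = f (N - b) := by
  intro s
  induction s with
  | zero => intro a b N h1 h2 h3; omega
  | succ s ih =>
    intro a b N hs ha hb hN hfa hfb
    rcases lt_trichotomy a b with hab | hab | hab
    · have h1 := ih a (b - a) (N - a) (by omega) ha (by omega) (by omega)
        (fun k hk => hfa k (by omega))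
        (fun k hk => by
          have e1 := hfb k (by omega)
          have e2 := hfa (k + (b - a)) (by omega)
          rw [show k + (b - a) + a = k + b by omega] at e2
          rw [e1, e2])
      have e3 := hfa (N - a - a) (by omega)
      rw [show N - a - a + a = N - a by omega] at e3
      rw [show N - a - (b - a) = N - b by omega] at h1
      rw [← e3, h1]
    · rw [hab]
    · have h1 := ih (a - b) b (N - b) (by omega) (by omega) hb (by omega)
        (fun k hk => by
          have e1 := hfa k (by omega)
          have e2 := hfb (k + (a - b)) (by omega)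
          rw [show k + (a - b) + b = k + a by omega] at e2
          rw [e1, e2])
        (fun k hk => hfb k (by omega))
      have e3 := hfb (N - b - b) (by omega)
      rw [show N - b - b + b = N - b by omega] at e3
      rw [show N - b - (a - b) = N - a by omega] at h1
      rw [h1, e3]

namespace Cod

variable {w : ℕ → α} {N : ℕ} {T : ℕ → ℕ} {χ : ℕ → Bool} {ℓ : Bool → ℕ}

theorem fw (h : Cod w N T χ ℓ) : N + 2 ≤ ℓ true + ℓ false := by
  by_contra hcon
  have hcon' : ℓ true + ℓ false ≤ N + 1 := by omega
  obtain ⟨mA, -, hA⟩ := h.inf true 0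
  obtain ⟨mB, -, hB⟩ := h.inf false 0
  have pA := h.pos true
  have pB := h.pos false
  have sA := h.step mA
  have sB := h.step mB
  rw [hA] at sA
  rw [hB] at sB
  have key := fineWilf (fun k => w (T 0 + k)) (ℓ true + ℓ false) (ℓ true) (ℓ false) N le_rfl pA pB
    hcon'
    (fun k hk => by
      have e1 := h.same 0 mA (k + ℓ true) (by omega)
      have e2 := h.same 0 (mA + 1) k (by omega)
      show w (T 0 + k) = w (T 0 + (k + ℓ true))
      rw [e1, e2, sA]; congr 1; omega)
    (fun k hk => by
      have e1 := h.same 0 mB (k + ℓ false) (by omega)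
      have e2 := h.same 0 (mB + 1) k (by omega)
      show w (T 0 + k) = w (T 0 + (k + ℓ false))
      rw [e1, e2, sB]; congr 1; omega)
  have key' : w (T 0 + (N - ℓ true)) = w (T 0 + (N - ℓ false)) := key
  have eA := h.same 0 (mA + 1) (N - ℓ true) (by omega)
  have eB := h.same 0 (mB + 1) (N - ℓ false) (by omega)
  rw [sA, show T mA + ℓ true + (N - ℓ true) = T mA + N by omega] at eA
  rw [sB, show T mB + ℓ false + (N - ℓ false) = T mB + N by omega] at eB
  have hne : χ mA = χ mB := (h.next mA mB).mpr (by rw [← eA, ← eB, key'])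
  rw [hA, hB] at hne
  exact absurd hne (by decide)

end Cod

open Classical in
/-- existence of the coding -/
theorem exists_cod [Finite α] {w : ℕ → α} (hw : NP w) {N : ℕ} (hN : p w (N + 1) ≤ p w N + 1) :
    ∃ T χ ℓ, Cod w N T χ ℓ := by
  have hd : ¬ ∀ i j, E w N i j → E w (N + 1) i j := by
    intro h
    exact noDet hw N 0 (fun i j _ _ hij => h i j hij)
  obtain ⟨i₁, i₂, h12, h12', hsp⟩ := key1 w N hN hd
  have hV : ∀ i, E w N i i₁ → E w (N + 1) i i₁ ∨ E w (N + 1) i i₂ := by
    intro i hi
    by_cases h1 : E w (N + 1) i i₁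
    · exact Or.inl h1
    · rcases hsp i i₁ hi h1 with h2 | h2
      · exact absurd h2.1 h1
      · exact Or.inr h2.1
  -- both types occur arbitrarily late
  have hA : ∀ M, ∃ i, M ≤ i ∧ E w (N + 1) i i₁ := by
    intro M
    by_contra hcon
    push Not at hcon
    refine noDet hw N M (fun i j hi hj hij => ?_)
    by_contra hne
    rcases hsp i j hij hne with h1 | h1
    · exact hcon i hi h1.1
    · exact hcon j hj h1.2
  have hB : ∀ M, ∃ i, M ≤ i ∧ E w (N + 1) i i₂ := by
    intro M
    by_contra hcon
    push Not at hcon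
    refine noDet hw N M (fun i j hi hj hij => ?_)
    by_contra hne
    rcases hsp i j hij hne with h1 | h1
    · exact hcon j hj h1.2
    · exact hcon i hi h1.1
  set P : ℕ → Prop := fun i => E w N i i₁ with hP
  have hinf : (Set.ofPred P).Infinite := by
    rw [Set.infinite_iff_exists_gt]
    intro M
    obtain ⟨i, hi, hi'⟩ := hA (M + 1)
    exact ⟨i, hi'.mono (by omega), by omega⟩
  set T : ℕ → ℕ := fun m => Nat.nth P m with hT
  have hTmem : ∀ m, P (T m) := fun m => Nat.nth_mem_of_infinite hinf m
  have hTmono : StrictMono T := Nat.nth_strictMono hinf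
  have hTcov : ∀ i, P i → ∃ m, T m = i := by
    intro i hi
    have : i ∈ Set.range (Nat.nth P) := by
      rw [Nat.range_nth_of_infinite hinf]; exact hi
    exact this
  have hsame : ∀ m m', E w N (T m) (T m') := fun m m' => (hTmem m).trans (hTmem m').symm
  set χ : ℕ → Bool := fun m => decide (w (T m + N) = w (i₁ + N)) with hχ
  have hχt : ∀ m, χ m = true ↔ E w (N + 1) (T m) i₁ := by
    intro m
    rw [hχ]
    simp only [decide_eq_true_eq]
    constructor
    · intro h; exact (hTmem m).succ h
    · intro h; exact h.next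
  have hχf : ∀ m, χ m = false ↔ E w (N + 1) (T m) i₂ := by
    intro m
    constructor
    · intro h
      rcases hV (T m) (hTmem m) with h1 | h1
      · rw [(hχt m).mpr h1] at h; exact absurd h (by decide)
      · exact h1
    · intro h
      by_contra hne
      have h1 : χ m = true := by
        cases hc : χ m
        · exact absurd hc hne
        · rfl
      exact h12' (((hχt m).mp h1).symm.trans h)
  have hinfχ : ∀ c M, ∃ m, M ≤ m ∧ χ m = c := by
    intro c M
    cases c
    · obtain ⟨i, hi, hi'⟩ := hB (T M)
      obtain ⟨m, hm⟩ := hTcov i ((hi'.mono (by omega)).trans h12.symm)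
      refine ⟨m, ?_, (hχf m).mpr (by rw [hm]; exact hi')⟩
      rw [← hm] at hi
      exact hTmono.le_iff_le.mp hi
    · obtain ⟨i, hi, hi'⟩ := hA (T M)
      obtain ⟨m, hm⟩ := hTcov i (hi'.mono (by omega))
      refine ⟨m, ?_, (hχt m).mpr (by rw [hm]; exact hi')⟩
      rw [← hm] at hi
      exact hTmono.le_iff_le.mp hi
  have hnext : ∀ m m', χ m = χ m' ↔ w (T m + N) = w (T m' + N) := by
    intro m m'
    constructor
    · intro h
      cases hc : χ m
      · have h1 := (hχf m).mp hc
        have h2 := (hχf m').mp (h ▸ hc)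
        exact (h1.trans h2.symm).next
      · have h1 := (hχt m).mp hc
        have h2 := (hχt m').mp (h ▸ hc)
        exact (h1.trans h2.symm).next
    · intro h
      rw [hχ]
      simp only [h]
  have huniq : ∀ i j, E w N i j → w (i + N) ≠ w (j + N) → ∃ m, T m = i := by
    intro i j hij hne
    apply hTcov
    rcases hsp i j hij (fun h => hne h.next) with h1 | h1
    · exact h1.1.mono (by omega)
    · exact (h1.1.mono (by omega)).trans h12.symm
  have hbetween : ∀ m i, T m < i → i < T (m + 1) → ∀ m', T m' ≠ i := by
    intro m i h1 h2 m' h3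
    subst h3
    have a := hTmono.lt_iff_lt.mp h1
    have b := hTmono.lt_iff_lt.mp h2
    omega
  have hgap : ∀ m m', χ m = χ m' → T (m + 1) - T m ≤ T (m' + 1) - T m' := by
    intro m m' hmm
    by_contra hcon
    have l1 : T m < T (m + 1) := hTmono (by omega)
    have l2 : T m' < T (m' + 1) := hTmono (by omega)
    set g := T (m' + 1) - T m' with hg
    have key : ∀ t, t < g → E w (N + 1 + t) (T m) (T m') := by
      intro t
      induction t with
      | zero => intro _; exact (hsame m m').succ ((hnext m m').mp hmm)
      | succ t ih =>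
        intro ht
        have h1 := ih (by omega)
        rw [show N + 1 + (t + 1) = N + 1 + t + 1 by omega]
        apply h1.succ
        by_contra hne
        have h2 : E w N (T m + (1 + t)) (T m' + (1 + t)) := by
          apply E.shift
          rw [show N + (1 + t) = N + 1 + t by omega]; exact h1
        obtain ⟨m'', hm''⟩ := huniq (T m + (1 + t)) (T m' + (1 + t)) h2 (by
          rw [show T m + (1 + t) + N = T m + (N + 1 + t) by omega,
            show T m' + (1 + t) + N = T m' + (N + 1 + t) by omega]; exact hne)
        exact hbetween m _ (by omega) (by omega) m'' hm''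
    have h1 := key (g - 1) (by omega)
    have h2 : E w N (T m + g) (T m' + g) := by
      apply E.shift
      rw [show N + g = N + 1 + (g - 1) by omega]; exact h1
    rw [show T m' + g = T (m' + 1) by omega] at h2
    obtain ⟨m'', hm''⟩ := hTcov (T m + g) (h2.trans (hTmem (m' + 1)))
    exact hbetween m _ (by omega) (by omega) m'' hm''
  obtain ⟨mA, -, hmA⟩ := hinfχ true 0
  obtain ⟨mB, -, hmB⟩ := hinfχ false 0
  refine ⟨T, χ, fun c => if c then T (mA + 1) - T mA else T (mB + 1) - T mB, ?_, ?_, hsame, ?_,
    hnext, huniq, hinfχ⟩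
  · intro c
    have l1 : T mA < T (mA + 1) := hTmono (by omega)
    have l2 : T mB < T (mB + 1) := hTmono (by omega)
    cases c
    · simp only [Bool.false_eq_true, if_false]; omega
    · simp only [if_true]; omega
  · intro m
    have l0 : T m < T (m + 1) := hTmono (by omega)
    cases hc : χ m
    · simp only [Bool.false_eq_true, if_false]
      have h1 := hgap m mB (hc.trans hmB.symm)
      have h2 := hgap mB m (hmB.trans hc.symm)
      omega
    · simp only [if_true]
      have h1 := hgap m mA (hc.trans hmA.symm)
      have h2 := hgap mA m (hmA.trans hc.symm)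
      omega
  · intro i hi
    exact hTcov i (hi.trans (hTmem 0))

end Pool.Agent.H43R2.Cplx
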