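import Pool.Agent.H43R2.Cplx.Limsup
import Pool.Agent.H43R2.Cplx.EFinal

namespace Pool.Agent.H43R2.Cplx

open Filter

theorem limsup_e (b : ℕ) [NeZero b] (hb : 2 ≤ b) {c : ℝ} (hc : c < 3 / 2) :
    ∃ᶠ n : ℕ in atTop, c * n < p (Real.digits (Int.fract (Real.exp 1)) b) n :=
  limsup_of_exp2 exp2_e b hb hc

end Pool.Agent.H43R2.Cplx
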