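import Pool.Agent.H43R2.Cplx.Bisp

namespace Pool.Agent.H43R2.Cplx

variable {α : Type*}

namespace Cod

variable {w : ℕ → α} {N : ℕ} {T : ℕ → ℕ} {χ : ℕ → Bool} {ℓ : Bool → ℕ}

theorem run (h : Cod w N T χ ℓ) {m r : ℕ} {c : Bool} (hc : ∀ s < r, χ (m + s) = c) :
    T (m + r) = T m + r * ℓ c := by
  induction r with
  | zero => simp
  | succ r ih =>
    have h1 := ih (fun s hs => hc s (by omega))
    have h2 : T (m + (r + 1)) = T (m + r) + ℓ (χ (m + r)) := h.step (m + r)
    rw [h2, h1, hc r (by omega)]
    ring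

/-- the shape of the coding sequence -/
theorem shape (h : Cod w N T χ ℓ) : ∃ k q, 0 < k ∧ 0 < q ∧ (∀ s < k, χ s = χ 0) ∧
    (∀ s < q, χ (k + s) = !(χ 0)) ∧ χ (k + q) = χ 0 := by
  classical
  have h1 : ∃ k, χ k = !(χ 0) := by
    obtain ⟨m, -, hm⟩ := h.inf (!(χ 0)) 0
    exact ⟨m, hm⟩
  have hk := Nat.find_spec h1
  have hk' := fun s => Nat.find_min h1 (m := s)
  set k := Nat.find h1 with hkdef
  have h2 : ∃ q, χ (k + q) = χ 0 := by
    obtain ⟨m, hm, hm'⟩ := h.inf (χ 0) k
    exact ⟨m - k, by rw [show k + (m - k) = m by omega]; exact hm'⟩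
  have hq := Nat.find_spec h2
  have hq' := fun s => Nat.find_min h2 (m := s)
  set q := Nat.find h2 with hqdef
  refine ⟨k, q, ?_, ?_, ?_, ?_, hq⟩
  · rcases Nat.eq_zero_or_pos k with hz | hz
    · rw [hz] at hk
      revert hk
      cases χ 0 <;> simp
    · exact hz
  · rcases Nat.eq_zero_or_pos q with hz | hz
    · rw [hz, add_zero, hk] at hq
      revert hq
      cases χ 0 <;> simp
    · exact hz
  · intro s hs
    have := hk' s hs
    revert this
    cases χ s <;> cases χ 0 <;> simp
  · intro s hs
    have := hq' s hs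
    revert this
    cases χ (k + s) <;> cases χ 0 <;> simp

/-- the key inequality -/
theorem key_ineq [Finite α] (h : Cod w N T χ ℓ)
    (hl : ∃ m m', w (T (m + 1) - 1) ≠ w (T (m' + 1) - 1)) {J Δ : ℕ}
    (hD : ∀ i j n, i < j → j ≤ J → E w n i j → n ≤ j + Δ)
    (hJ : 6 * p w N + 6 + Δ ≤ J) : 5 * N ≤ 4 * p w N + 4 + 4 * Δ := by
  obtain ⟨τ, e, c, hT0, hmin, he, hpre⟩ := h.prefix_struct
  have hcount := h.count hl (τ := τ) (by omega) hmin
  have hfw := h.fw
  obtain ⟨k, q, hk, hq, hA, hB, hAq⟩ := h.shape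
  set a := ℓ (χ 0) with ha
  set b := ℓ (!(χ 0)) with hb
  have hab : ℓ true + ℓ false = a + b := by
    rw [ha, hb]; cases χ 0 <;> simp [add_comm]
  have pa : 0 < a := h.pos _
  have pb : 0 < b := h.pos _
  have hcab : (c = χ 0 ∧ e < a) ∨ (c = !(χ 0) ∧ e < b) := by
    by_cases hc : c = χ 0
    · left; exact ⟨hc, by rw [ha, ← hc]; exact he⟩
    · right
      have : c = !(χ 0) := by revert hc; cases c <;> cases χ 0 <;> simp
      exact ⟨this, by rw [hb, ← this]; exact he⟩
  have heP : e ≤ p w N := by
    rcases hcab with h1 | h1 <;> omega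
  set P := p w N with hP
  have hsum : τ + a + b ≤ P + 1 := by omega
  have hfw' : N + 2 ≤ a + b := by omega
  -- positions
  have hTk : T k = T 0 + k * a := by
    have := h.run (m := 0) (r := k) (c := χ 0) (fun s hs => by rw [Nat.zero_add]; exact hA s hs)
    rwa [Nat.zero_add] at this
  have hTkr : ∀ r ≤ q, T (k + r) = T 0 + k * a + r * b := by
    intro r hr
    have := h.run (m := k) (r := r) (c := !(χ 0)) (fun s hs => hB s (by omega))
    rw [this, hTk]
  have hT1 : T 1 = T 0 + a := h.step 0
  -- combining with the prefix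
  have comb : ∀ m x, χ m = c → E w x (T 0) (T (m + 1)) → T (m + 1) - e ≤ J →
      e + x ≤ T (m + 1) - e + Δ := by
    intro m x hm hx hmJ
    have h1 := hpre m hm
    have hTm : T m < T (m + 1) := h.mono (by omega)
    have hT0m : T 0 ≤ T m := h.mono.monotone (by omega)
    have hge : T m < T (m + 1) - e := by
      have := h.step m
      rw [hm] at this
      omega
    refine hD τ (T (m + 1) - e) (e + x) (by omega) hmJ ?_
    refine E.append (h1.mono (by omega)) ?_
    rw [show T (m + 1) - e + e = T (m + 1) by omega, show τ + e = T 0 by omega]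
    exact hx
  have T0T1 : E w ((k - 1) * a + N) (T 0) (T 1) := by
    have h1 := h.loops (m := 0) (m' := 1) (r := k - 1) (fun s hs => by
      rw [Nat.zero_add, hA s (by omega), hA (1 + s) (by omega)])
    have h2 := h.run (m := 0) (r := k - 1) (c := χ 0)
      (fun s hs => by rw [Nat.zero_add]; exact hA s (by omega))
    rw [Nat.zero_add] at h1 h2
    rw [h2] at h1
    have := h1.1
    rw [← ha] at this
    rwa [show T 0 + (k - 1) * a - T 0 + N = (k - 1) * a + N by omega] at this
  have T0Tkq : E w (a + N) (T 0) (T (k + q)) := by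
    have h1 := h.loops (m := 0) (m' := k + q) (r := 1) (fun s hs => by
      rw [show s = 0 by omega, add_zero, add_zero, hAq])
    rw [Nat.zero_add, hT1] at h1
    have := h1.1
    rwa [show T 0 + a - T 0 + N = a + N by omega] at this
  have i1 := hD (T 0) (T 1) ((k - 1) * a + N) (h.mono (by omega)) (by omega) T0T1
  rcases Nat.lt_or_ge 1 k with hk2 | hk1
  · -- k ≥ 2
    obtain ⟨k', rfl⟩ : ∃ k', k = k' + 2 := ⟨k - 2, by omega⟩
    have hX : (k' + 2) * a = k' * a + 2 * a := by ring
    have hX1 : (k' + 2 - 1) * a = k' * a + a := by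
      rw [show k' + 2 - 1 = k' + 1 by omega]; ring
    rw [hX] at hTk hTkr
    rw [hX1] at i1 T0T1
    set X := k' * a with hXdef
    rcases hcab with ⟨hc, hea⟩ | ⟨hc, heb⟩
    · have i2 := comb 0 (X + a + N) hc.symm (by rw [Nat.zero_add]; exact T0T1)
        (by rw [Nat.zero_add]; omega)
      rw [Nat.zero_add] at i2
      omega
    · have hTk1 := hTkr 1 (by omega)
      have hck : χ (k' + 2) = c := by rw [hc]; exact hB 0 (by omega)
      have i2 := comb (k' + 2) N hck (h.same _ _) (by rw [hTk1]; omega)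
      rw [hTk1] at i2
      omega
  · have hk1' : k = 1 := by omega
    subst hk1'
    rw [show (1 - 1) * a + N = N by simp] at i1 T0T1
    rw [one_mul] at hTkr
    have hTq1 : T (1 + q) = T 0 + a + q * b := hTkr q le_rfl
    rcases Nat.lt_or_ge 1 q with hq2 | hq1
    · obtain ⟨q', rfl⟩ : ∃ q', q = q' + 2 := ⟨q - 2, by omega⟩
      have hT2 : T 2 = T 0 + a + b := by
        have := hTkr 1 (by omega)
        rw [one_mul] at this; exact this
      have T1T2 : E w ((q' + 1) * b + N) (T 1) (T 2) := by
        have h1 := h.loops (m := 1) (m' := 2) (r := q' + 1) (fun s hs => by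
          rw [hB s (by omega), show 2 + s = 1 + (s + 1) by omega, hB (s + 1) (by omega)])
        have h2 := hTkr (q' + 1) (by omega)
        have := h1.1
        rw [h2] at this
        rwa [show T 0 + a + (q' + 1) * b - T 1 + N = (q' + 1) * b + N by omega] at this
      have hZ : (q' + 2) * b = q' * b + 2 * b := by ring
      have hZ1 : (q' + 1) * b = q' * b + b := by ring
      rw [hZ] at hTq1
      rw [hZ1] at T1T2
      set Z := q' * b with hZdef
      have i3 := hD (T 1) (T 2) (Z + b + N) (h.mono (by omega)) (by omega) T1T2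
      have hJq : T (1 + (q' + 2)) ≤ J := by rw [hTq1]; omega
      rcases hcab with ⟨hc, hea⟩ | ⟨hc, heb⟩
      · have i2 := comb 0 N hc.symm (h.same _ _) (by rw [Nat.zero_add]; omega)
        rw [Nat.zero_add] at i2
        have i4 := hD (T 0) (T (1 + (q' + 2))) (a + N) (h.mono (by omega)) hJq T0Tkq
        omega
      · have hcq : χ (q' + 2) = c := by
          rw [hc, show q' + 2 = 1 + (q' + 1) by omega]; exact hB (q' + 1) (by omega)
        have i2 := comb (q' + 2) (a + N) hcq
          (by rw [show q' + 2 + 1 = 1 + (q' + 2) by omega]; exact T0Tkq)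
          (by rw [show q' + 2 + 1 = 1 + (q' + 2) by omega]; omega)
        rw [show q' + 2 + 1 = 1 + (q' + 2) by omega] at i2
        have hc1 : χ 1 = c := by
          rw [hc]; exact hB 0 (by omega)
        have i4 := comb 1 N hc1 (h.same _ _) (by
          rw [show 1 + 1 = 2 by omega]; omega)
        rw [show 1 + 1 = 2 by omega] at i4
        omega
    · have hq1' : q = 1 := by omega
      subst hq1'
      rw [one_mul] at hTq1
      rcases hcab with ⟨hc, hea⟩ | ⟨hc, heb⟩
      · have i2 := comb 0 N hc.symm (h.same _ _) (by rw [Nat.zero_add]; omega)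
        rw [Nat.zero_add] at i2
        have i4 := hD (T 0) (T (1 + 1)) (a + N) (h.mono (by omega)) (by omega) T0Tkq
        omega
      · have hcq : χ 1 = c := by
          rw [hc]; exact hB 0 (by omega)
        have i2 := comb 1 (a + N) hcq T0Tkq (by omega)
        omega

end Cod

end Pool.Agent.H43R2.Cplx
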