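import Pool.Agent.H43R2.Cplx.Branch

namespace Pool.Agent.H43R2.Cplx

variable {α : Type*}

namespace Cod

variable {w : ℕ → α} {N : ℕ} {T : ℕ → ℕ} {χ : ℕ → Bool} {ℓ : Bool → ℕ}

/-- the shortest run of `c`'s after the index `v0` -/
theorem exists_mu (h : Cod w N T χ ℓ) {c : Bool} {v0 : ℕ} :
    ∃ μ i, v0 + 1 ≤ i ∧ χ (i - 1) = !c ∧ (∀ s < μ, χ (i + s) = c) ∧ χ (i + μ) = !c ∧
      (∀ i', v0 + 1 ≤ i' → χ (i' - 1) = !c → ∀ s < μ, χ (i' + s) = c) := by
  classical
  set Q : ℕ → Prop := fun r => ∃ i, v0 + 1 ≤ i ∧ χ (i - 1) = !c ∧ (∀ s < r, χ (i + s) = c) ∧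
    χ (i + r) = !c with hQ
  have hne : ∀ x : Bool, x ≠ (!c) → x = c := by intro x; cases x <;> cases c <;> simp
  have first : ∀ i', v0 + 1 ≤ i' → χ (i' - 1) = !c → ∀ s, χ (i' + s) = (!c) →
      ∃ r ≤ s, Q r := by
    intro i' hi' hi'' s hs
    have hex : ∃ r, χ (i' + r) = !c := ⟨s, hs⟩
    refine ⟨Nat.find hex, Nat.find_min' hex hs, i', hi', hi'', ?_, Nat.find_spec hex⟩
    intro s' hs'
    exact hne _ (Nat.find_min hex hs')
  have hex : ∃ r, Q r := by
    obtain ⟨m1, hm1, hm1'⟩ := h.inf (!c) v0
    obtain ⟨m2, hm2, hm2'⟩ := h.inf (!c) (m1 + 1)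
    obtain ⟨r, -, hr⟩ := first (m1 + 1) (by omega) (by simpa using hm1') (m2 - (m1 + 1))
      (by rw [show m1 + 1 + (m2 - (m1 + 1)) = m2 by omega]; exact hm2')
    exact ⟨r, hr⟩
  obtain ⟨i, h1, h2, h3, h4⟩ := Nat.find_spec hex
  refine ⟨Nat.find hex, i, h1, h2, h3, h4, ?_⟩
  intro i' hi' hi'' s hs
  by_contra hcon
  have hs' : χ (i' + s) = !c := by
    revert hcon; cases χ (i' + s) <;> cases c <;> simp
  obtain ⟨r, hr, hQr⟩ := first i' hi' hi'' s hs'
  exact Nat.find_min hex (lt_of_le_of_lt hr hs) hQr

/-- a longer run exists, else the word is eventually periodic -/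
theorem exists_longer (h : Cod w N T χ ℓ) (hw : NP w) {c : Bool} {v0 μ : ℕ} (hv0 : χ v0 = !c)
    (hμ : ∀ i', v0 + 1 ≤ i' → χ (i' - 1) = !c → ∀ s < μ, χ (i' + s) = c) :
    ∃ j, v0 + 1 ≤ j ∧ χ (j - 1) = !c ∧ ∀ s < μ + 1, χ (j + s) = c := by
  by_contra hcon
  push Not at hcon
  have key : ∀ j, v0 + 1 ≤ j → χ (j - 1) = (!c) → χ (j + μ) = !c := by
    intro j hj hj'
    obtain ⟨s, hs, hs'⟩ := hcon j hj hj'
    have h1 : ¬ s < μ := fun hlt => hs' (hμ j hj hj' s hlt)
    have h2 : s = μ := by omega
    subst h2
    revert hs'; cases χ (j + s) <;> cases c <;> simp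
  have h1 : ∀ n, χ (v0 + n * (μ + 1)) = !c := by
    intro n
    induction n with
    | zero => simpa using hv0
    | succ n ih =>
      have := key (v0 + n * (μ + 1) + 1) (by omega) (by simpa using ih)
      rw [show v0 + (n + 1) * (μ + 1) = v0 + n * (μ + 1) + 1 + μ by ring]
      exact this
  have h2 : ∀ n r, r < μ → χ (v0 + n * (μ + 1) + 1 + r) = c := by
    intro n r hr
    exact hμ (v0 + n * (μ + 1) + 1) (by omega) (by simpa using h1 n) r hr
  have h3 : ∀ s, χ (v0 + s) = χ (v0 + (μ + 1) + s) := by
    intro s
    obtain ⟨n, r, hr, hs⟩ : ∃ n r, r < μ + 1 ∧ s = n * (μ + 1) + r :=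
      ⟨s / (μ + 1), s % (μ + 1), Nat.mod_lt _ (by omega), by
        rw [mul_comm]; exact (Nat.div_add_mod s (μ + 1)).symm⟩
    subst hs
    rcases Nat.eq_zero_or_pos r with hz | hz
    · subst hz
      rw [show v0 + (n * (μ + 1) + 0) = v0 + n * (μ + 1) by omega,
        show v0 + (μ + 1) + (n * (μ + 1) + 0) = v0 + (n + 1) * (μ + 1) by ring, h1, h1]
    · obtain ⟨r, rfl⟩ : ∃ r', r = r' + 1 := ⟨r - 1, by omega⟩
      rw [show v0 + (n * (μ + 1) + (r + 1)) = v0 + n * (μ + 1) + 1 + r by ring,
        show v0 + (μ + 1) + (n * (μ + 1) + (r + 1)) = v0 + (n + 1) * (μ + 1) + 1 + r by ring,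
        h2 n r (by omega), h2 (n + 1) r (by omega)]
  obtain ⟨n, hn⟩ := hw (T v0) (T (v0 + (μ + 1))) (h.mono (by omega))
  apply hn
  have h4 := (h.loops (m := v0) (m' := v0 + (μ + 1)) (r := n) (fun s _ => h3 s)).1
  refine h4.mono ?_
  have h5 : ∀ n, T v0 + n ≤ T (v0 + n) := by
    intro n
    induction n with
    | zero => simp
    | succ n ih =>
      have := h.mono (show v0 + n < v0 + (n + 1) by omega)
      omega
  have := h5 n
  omega

/-- the key inequality for the limsup -/
theorem key_ineq2 [Finite α] (h : Cod w N T χ ℓ) (hw : NP w)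
    (hl : ∃ m m', w (T (m + 1) - 1) ≠ w (T (m' + 1) - 1)) {J Δ : ℕ}
    (hD : ∀ i j n, i < j → j ≤ J → E w n i j → n ≤ j + Δ)
    (hJ : 6 * p w N + 6 + Δ ≤ J) :
    ∃ n, N ≤ n ∧ n ≤ 10 * p w N + 10 + Δ ∧ 3 * n ≤ 2 * p w n + 10 + 10 * Δ := by
  by_cases hneg : 3 * N ≤ 2 * p w N + 10 + 10 * Δ
  · refine ⟨N, le_rfl, ?_, hneg⟩
    have := hw.p_add 0 N
    rw [Nat.zero_add] at this
    omega
  obtain ⟨τ, e, c, hT0, hmin, he, hpre⟩ := h.prefix_struct
  have hcount := h.count hl (τ := τ) (by omega) hmin
  have hfw := h.fw
  obtain ⟨k, q, hk, hq, hA, hB, hAq⟩ := h.shape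
  set a := ℓ (χ 0) with ha
  set b := ℓ (!(χ 0)) with hb
  have hab : ℓ true + ℓ false = a + b := by
    rw [ha, hb]; cases χ 0 <;> simp [add_comm]
  have pa : 0 < a := h.pos _
  have pb : 0 < b := h.pos _
  have hcab : (c = χ 0 ∧ e < a) ∨ (c = !(χ 0) ∧ e < b) := by
    by_cases hc : c = χ 0
    · left; exact ⟨hc, by rw [ha, ← hc]; exact he⟩
    · right
      have : c = !(χ 0) := by revert hc; cases c <;> cases χ 0 <;> simp
      exact ⟨this, by rw [hb, ← this]; exact he⟩
  have heP : e ≤ p w N := by
    rcases hcab with h1 | h1 <;> omega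
  set P := p w N with hP
  have hsum : τ + a + b ≤ P + 1 := by omega
  have hfw' : N + 2 ≤ a + b := by omega
  -- positions
  have hTk : T k = T 0 + k * a := by
    have := h.run (m := 0) (r := k) (c := χ 0) (fun s hs => by rw [Nat.zero_add]; exact hA s hs)
    rwa [Nat.zero_add] at this
  have hTkr : ∀ r ≤ q, T (k + r) = T 0 + k * a + r * b := by
    intro r hr
    have := h.run (m := k) (r := r) (c := !(χ 0)) (fun s hs => hB s (by omega))
    rw [this, hTk]
  have hT1 : T 1 = T 0 + a := h.step 0
  -- combining with the beginning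
  have comb : ∀ m x, χ m = c → E w x (T 0) (T (m + 1)) → T (m + 1) - e ≤ J →
      e + x ≤ T (m + 1) - e + Δ := by
    intro m x hm hx hmJ
    have h1 := hpre m hm
    have hTm : T m < T (m + 1) := h.mono (by omega)
    have hT0m : T 0 ≤ T m := h.mono.monotone (by omega)
    have hge : T m < T (m + 1) - e := by
      have := h.step m
      rw [hm] at this
      omega
    refine hD τ (T (m + 1) - e) (e + x) (by omega) hmJ ?_
    refine E.append (h1.mono (by omega)) ?_
    rw [show T (m + 1) - e + e = T (m + 1) by omega, show τ + e = T 0 by omega]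
    exact hx
  have T0T1 : E w ((k - 1) * a + N) (T 0) (T 1) := by
    have h1 := h.loops (m := 0) (m' := 1) (r := k - 1) (fun s hs => by
      rw [Nat.zero_add, hA s (by omega), hA (1 + s) (by omega)])
    have h2 := h.run (m := 0) (r := k - 1) (c := χ 0)
      (fun s hs => by rw [Nat.zero_add]; exact hA s (by omega))
    rw [Nat.zero_add] at h1 h2
    rw [h2] at h1
    have := h1.1
    rw [← ha] at this
    rwa [show T 0 + (k - 1) * a - T 0 + N = (k - 1) * a + N by omega] at this
  have i1 := hD (T 0) (T 1) ((k - 1) * a + N) (h.mono (by omega)) (by omega) T0T1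
  rcases Nat.lt_or_ge 1 k with hk2 | hk1
  · -- k ≥ 2
    obtain ⟨k', rfl⟩ : ∃ k', k = k' + 2 := ⟨k - 2, by omega⟩
    have hX : (k' + 2) * a = k' * a + 2 * a := by ring
    have hX1 : (k' + 2 - 1) * a = k' * a + a := by
      rw [show k' + 2 - 1 = k' + 1 by omega]; ring
    rw [hX] at hTk hTkr
    rw [hX1] at i1 T0T1
    rcases hcab with ⟨hc, hea⟩ | ⟨hc, heb⟩
    · exfalso
      have i2 := comb 0 (k' * a + a + N) hc.symm (by rw [Nat.zero_add]; exact T0T1)
        (by rw [Nat.zero_add]; omega)
      rw [Nat.zero_add] at i2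
      set X := k' * a with hXdef
      omega
    · have hTk1 := hTkr 1 (by omega)
      rw [one_mul] at hTk1
      have hck : χ (k' + 2) = c := by rw [hc]; exact hB 0 (by omega)
      have hv0 : χ (k' + 2) = !(χ 0) := hB 0 (by omega)
      obtain ⟨μ, i, hi0, hi1, hi2, hi3, hμ⟩ := h.exists_mu (c := χ 0) (v0 := k' + 2)
      obtain ⟨j, hj0, hj1, hj2⟩ := h.exists_longer hw hv0 hμ
      have hrun := hμ (k' + 2 + 1) le_rfl (by simpa using hv0)
      rcases Nat.lt_or_ge (k' + 2) (μ + 2) with hlt | hge
      · exfalso
        have hx : E w (k' * a + a + N) (T 0) (T (k' + 2 + 1)) := by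
          have h1 := h.loops (m := 0) (m' := k' + 2 + 1) (r := k' + 1) (fun s hs => by
            rw [Nat.zero_add, hA s (by omega), hrun s (by omega)])
          have h2 := h.run (m := 0) (r := k' + 1) (c := χ 0)
            (fun s hs => by rw [Nat.zero_add]; exact hA s (by omega))
          rw [Nat.zero_add] at h1 h2
          rw [h2, ← ha, show (k' + 1) * a = k' * a + a by ring] at h1
          have := h1.1
          rwa [show T 0 + (k' * a + a) - T 0 + N = k' * a + a + N by omega] at this
        have i2 := comb (k' + 2) (k' * a + a + N) hck hx (by rw [hTk1]; omega)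
        rw [hTk1] at i2
        set X := k' * a with hXdef
        omega
      · obtain ⟨k'', rfl⟩ : ∃ k'', k' = μ + k'' := ⟨k' - μ, by omega⟩
        have hx : E w (μ * a + N) (T 0) (T (μ + k'' + 2 + 1)) := by
          have h1 := h.loops (m := 0) (m' := μ + k'' + 2 + 1) (r := μ) (fun s hs => by
            rw [Nat.zero_add, hA s (by omega), hrun s (by omega)])
          have h2 := h.run (m := 0) (r := μ) (c := χ 0)
            (fun s hs => by rw [Nat.zero_add]; exact hA s (by omega))
          rw [Nat.zero_add] at h1 h2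
          rw [h2, ← ha] at h1
          have := h1.1
          rwa [show T 0 + μ * a - T 0 + N = μ * a + N by omega] at this
        have hXX : (μ + k'') * a = μ * a + k'' * a := by ring
        rw [hXX] at i1 hTk1
        have i2 := comb (μ + k'' + 2) (μ * a + N) hck hx (by rw [hTk1]; omega)
        rw [hTk1] at i2
        have hZ1 : (μ + k'' + 2 - 1 - μ) * a = k'' * a + a := by
          rw [show μ + k'' + 2 - 1 - μ = k'' + 1 by omega]; ring
        set x := min b (k'' * a + a) with hxdef
        have hx1 : x ≤ b := min_le_left _ _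
        have hx2 : x ≤ k'' * a + a := min_le_right _ _
        have hx3 : x = b ∨ x = k'' * a + a := by
          rcases min_choice b (k'' * a + a) with hh | hh
          · left; exact hh
          · right; exact hh
        have hbr : ∀ s < x, p w (N + μ * a + 1 + s) + 2 ≤ p w (N + μ * a + 1 + s + 1) := by
          intro s hs
          have := h.branch hl (c := χ 0) (μ := μ) (i := i) (j := j) (u := 0) (K := μ + k'' + 2)
            (t := s + 1) (by omega) hi1 hi2 hi3 (by omega) hj1 hj2 (by omega)
            (fun s hs => by rw [Nat.zero_add]; exact hA s hs)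
            (by rw [Nat.zero_add]; exact hv0) (by omega) (by rw [← hb]; omega)
            (by rw [← ha, hZ1]; omega)
          rw [← ha] at this
          rwa [show N + μ * a + (s + 1) = N + μ * a + 1 + s by omega] at this
        have hp1 := p_add_two hbr
        have hp2 := hw.p_add N (μ * a + 1)
        rw [show N + (μ * a + 1) = N + μ * a + 1 by omega] at hp2
        refine ⟨N + μ * a + 1 + x, by omega, ?_, ?_⟩
        · set M := μ * a with hM
          set Z := k'' * a with hZ
          omega
        · set M := μ * a with hM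
          set Z := k'' * a with hZ
          rcases hx3 with hx3 | hx3 <;> omega
  · have hk1' : k = 1 := by omega
    subst hk1'
    rw [show (1 - 1) * a + N = N by simp] at i1 T0T1
    rw [one_mul] at hTkr
    have hTq1 : T (1 + q) = T 0 + a + q * b := hTkr q le_rfl
    rcases Nat.lt_or_ge 1 q with hq2 | hq1
    · obtain ⟨q', rfl⟩ : ∃ q', q = q' + 2 := ⟨q - 2, by omega⟩
      have hT2 : T 2 = T 0 + a + b := by
        have := hTkr 1 (by omega)
        rw [one_mul] at this; exact this
      have T1T2 : E w ((q' + 1) * b + N) (T 1) (T 2) := by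
        have h1 := h.loops (m := 1) (m' := 2) (r := q' + 1) (fun s hs => by
          rw [hB s (by omega), show 2 + s = 1 + (s + 1) by omega, hB (s + 1) (by omega)])
        have h2 := hTkr (q' + 1) (by omega)
        have := h1.1
        rw [h2] at this
        rwa [show T 0 + a + (q' + 1) * b - T 1 + N = (q' + 1) * b + N by omega] at this
      have hZ : (q' + 2) * b = q' * b + 2 * b := by ring
      have hZ1 : (q' + 1) * b = q' * b + b := by ring
      rw [hZ] at hTq1
      rw [hZ1] at T1T2
      have i3 := hD (T 1) (T 2) (q' * b + b + N) (h.mono (by omega)) (by omega) T1T2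
      have hJq : T (1 + (q' + 2)) ≤ J := by rw [hTq1]; omega
      have hv0 : χ (1 + (q' + 2)) = !(!(χ 0)) := by rw [hAq]; simp
      obtain ⟨μ, i, hi0, hi1, hi2, hi3, hμ⟩ := h.exists_mu (c := !(χ 0)) (v0 := 1 + (q' + 2))
      have hrun := hμ (1 + (q' + 2) + 1) le_rfl (by simpa using hAq)
      have match1 : ∀ r, r ≤ μ → r ≤ q' + 2 → E w (a + r * b + N) (T 0) (T (1 + (q' + 2))) := by
        intro r hr1 hr2
        have h1 := h.loops (m := 0) (m' := 1 + (q' + 2)) (r := 1 + r) (fun s hs => by
          rw [Nat.zero_add]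
          cases s with
          | zero => rw [add_zero, hAq]
          | succ s =>
            rw [show s + 1 = 1 + s by omega, hB s (by omega),
              show 1 + (q' + 2) + (1 + s) = 1 + (q' + 2) + 1 + s by omega, hrun s (by omega)])
        have h2 := hTkr r hr2
        rw [Nat.zero_add, h2] at h1
        have := h1.1
        rwa [show T 0 + a + r * b - T 0 + N = a + r * b + N by omega] at this
      rcases Nat.lt_or_ge (q' + 2) (μ + 2) with hlt | hge
      · exfalso
        have hm := match1 (q' + 1) (by omega) (by omega)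
        rw [hZ1] at hm
        rcases hcab with ⟨hc, hea⟩ | ⟨hc, heb⟩
        · have i2 := comb 0 N hc.symm (h.same _ _) (by rw [Nat.zero_add]; omega)
          rw [Nat.zero_add] at i2
          have i4 := hD (T 0) (T (1 + (q' + 2))) (a + (q' * b + b) + N) (h.mono (by omega)) hJq hm
          set Z := q' * b with hZdef
          omega
        · have hcq : χ (q' + 2) = c := by
            rw [hc, show q' + 2 = 1 + (q' + 1) by omega]; exact hB (q' + 1) (by omega)
          have i2 := comb (q' + 2) (a + (q' * b + b) + N) hcq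
            (by rw [show q' + 2 + 1 = 1 + (q' + 2) by omega]; exact hm)
            (by rw [show q' + 2 + 1 = 1 + (q' + 2) by omega]; omega)
          rw [show q' + 2 + 1 = 1 + (q' + 2) by omega] at i2
          set Z := q' * b with hZdef
          omega
      · obtain ⟨q'', rfl⟩ : ∃ q'', q' = μ + q'' := ⟨q' - μ, by omega⟩
        have hm := match1 μ le_rfl (by omega)
        have hXX : (μ + q'') * b = μ * b + q'' * b := by ring
        rw [hXX] at i3 hTq1
        have hZ2 : (μ + q'' + 2 - 1 - μ) * b = q'' * b + b := by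
          rw [show μ + q'' + 2 - 1 - μ = q'' + 1 by omega]; ring
        have hZ3 : (μ + q'' + 2 - 1) * b = μ * b + q'' * b + b := by
          rw [show μ + q'' + 2 - 1 = μ + q'' + 1 by omega]; ring
        set x := min a (q'' * b + b) with hxdef
        have hx1 : x ≤ a := min_le_left _ _
        have hx2 : x ≤ q'' * b + b := min_le_right _ _
        have hx3 : x = a ∨ x = q'' * b + b := by
          rcases min_choice a (q'' * b + b) with hh | hh
          · left; exact hh
          · right; exact hh
        have hbr : ∀ s < x, p w (N + μ * b + 1 + s) + 2 ≤ p w (N + μ * b + 1 + s + 1) := by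
          intro s hs
          have := h.branch hl (c := !(χ 0)) (μ := μ) (i := i) (j := 1) (u := 1)
            (K := μ + q'' + 2)
            (t := s + 1) (by omega) hi1 hi2 hi3 (by omega) (by simp)
            (fun s hs => hB s (by omega)) (by omega)
            (fun s hs => hB s hs)
            hv0 (by omega) (by rw [Bool.not_not, ← ha]; omega)
            (by rw [← hb, hZ2]; omega)
          rw [← hb] at this
          rwa [show N + μ * b + (s + 1) = N + μ * b + 1 + s by omega] at this
        have hp1 := p_add_two hbr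
        rcases hcab with ⟨hc, hea⟩ | ⟨hc, heb⟩
        · have i2 := comb 0 N hc.symm (h.same _ _) (by rw [Nat.zero_add]; omega)
          rw [Nat.zero_add] at i2
          have i4 := hD (T 0) (T (1 + (μ + q'' + 2))) (a + μ * b + N) (h.mono (by omega)) hJq hm
          set e' := min e (μ * b) with he'
          have he1 : e' ≤ e := min_le_left _ _
          have he2 : e' ≤ μ * b := min_le_right _ _
          have he3 : e' = e ∨ e' = μ * b := by
            rcases min_choice e (μ * b) with hh | hh
            · left; exact hh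
            · right; exact hh
          have hbr0 : ∀ s < e', p w (N + 1 + s) + 2 ≤ p w (N + 1 + s + 1) := by
            intro s hs
            have hp00 := hpre 0 hc.symm
            rw [Nat.zero_add] at hp00
            have := h.branch0 hl (τ := τ) (e := e) (q := μ + q'' + 2) (t := s + 1) hT0 hp00
              (hB 0 (by omega)) (by omega) hB hAq (by omega) (by omega) (by rw [← ha]; exact hea)
              (by rw [← hb, hZ3]; omega)
            rwa [show N + (s + 1) = N + 1 + s by omega] at this
          have hq1 := p_add_two hbr0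
          have hq2 := hw.p_add N 1
          have hq3 := hw.p_add (N + 1 + e') (μ * b - e')
          rw [show N + 1 + e' + (μ * b - e') = N + μ * b + 1 by omega] at hq3
          refine ⟨N + μ * b + 1 + x, by omega, ?_, ?_⟩
          · set M := μ * b with hM
            set Z := q'' * b with hZdef
            omega
          · set M := μ * b with hM
            set Z := q'' * b with hZdef
            rcases hx3 with hx3 | hx3 <;> rcases he3 with he3 | he3 <;> omega
        · have hcq : χ (μ + q'' + 2) = c := by
            rw [hc, show μ + q'' + 2 = 1 + (μ + q'' + 1) by omega]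
            exact hB (μ + q'' + 1) (by omega)
          have i2 := comb (μ + q'' + 2) (a + μ * b + N) hcq
            (by rw [show μ + q'' + 2 + 1 = 1 + (μ + q'' + 2) by omega]; exact hm)
            (by rw [show μ + q'' + 2 + 1 = 1 + (μ + q'' + 2) by omega]; omega)
          rw [show μ + q'' + 2 + 1 = 1 + (μ + q'' + 2) by omega] at i2
          have hc1 : χ 1 = c := by
            rw [hc]; exact hB 0 (by omega)
          have i4 := comb 1 N hc1 (h.same _ _) (by
            rw [show 1 + 1 = 2 by omega]; omega)
          rw [show 1 + 1 = 2 by omega] at i4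
          have hp2 := hw.p_add N (μ * b + 1)
          rw [show N + (μ * b + 1) = N + μ * b + 1 by omega] at hp2
          refine ⟨N + μ * b + 1 + x, by omega, ?_, ?_⟩
          · set M := μ * b with hM
            set Z := q'' * b with hZdef
            omega
          · set M := μ * b with hM
            set Z := q'' * b with hZdef
            rcases hx3 with hx3 | hx3 <;> omega
    · exfalso
      have hq1' : q = 1 := by omega
      subst hq1'
      rw [one_mul] at hTq1
      have T0Tkq : E w (a + N) (T 0) (T (1 + 1)) := by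
        have h1 := h.loops (m := 0) (m' := 1 + 1) (r := 1) (fun s hs => by
          rw [show s = 0 by omega, add_zero, add_zero, hAq])
        rw [Nat.zero_add, hT1] at h1
        have := h1.1
        rwa [show T 0 + a - T 0 + N = a + N by omega] at this
      rcases hcab with ⟨hc, hea⟩ | ⟨hc, heb⟩
      · have i2 := comb 0 N hc.symm (h.same _ _) (by rw [Nat.zero_add]; omega)
        rw [Nat.zero_add] at i2
        have i4 := hD (T 0) (T (1 + 1)) (a + N) (h.mono (by omega)) (by omega) T0Tkq
        omega
      · have hcq : χ 1 = c := by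
          rw [hc]; exact hB 0 (by omega)
        have i2 := comb 1 (a + N) hcq T0Tkq (by omega)
        omega

end Cod

end Pool.Agent.H43R2.Cplx
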