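import Pool.Agent.H43R2.Cplx.Ineq2
import Pool.Agent.H43R2.Cplx.Digits
import Pool.Agent.H43R2.Cplx.EMeas

namespace Pool.Agent.H43R2.Cplx

open Filter

variable {α : Type*}

theorem limsup_of_rep [Finite α] {w : ℕ → α} (hw : Rep w) {c : ℝ} (hc : c < 3 / 2) :
    ∃ᶠ n : ℕ in atTop, c * n < p w n := by
  rw [Filter.Frequently]
  intro hev
  rw [Filter.eventually_atTop] at hev
  obtain ⟨n1, hn1⟩ := hev
  set c' := max c 1 with hc'
  have hc'1 : 1 ≤ c' := le_max_right _ _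
  have hc'2 : c' < 3 / 2 := max_lt hc (by norm_num)
  have hup : ∀ n, n1 ≤ n → (p w n : ℝ) ≤ c' * n := by
    intro n hn
    have h1 := hn1 n hn
    push Not at h1
    have h2 : c ≤ c' := le_max_left _ _
    have h3 : (0 : ℝ) ≤ n := Nat.cast_nonneg n
    nlinarith
  set δ := 3 - 2 * c' with hδ
  have hδpos : 0 < δ := by rw [hδ]; linarith
  have hδ1 : δ ≤ 1 := by rw [hδ]; linarith
  obtain ⟨K0, hK0⟩ := hw (δ / 400) (by positivity)
  set ε := δ / 400 with hε
  have hεpos : 0 < ε := by positivity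
  set K := max K0 0 with hKdef
  have hK : ∀ i j n : ℕ, i < j → E w n i j → (n : ℝ) ≤ (1 + ε) * j + K := by
    intro i j n hij hE
    have := hK0 i j n hij hE
    have h2 := le_max_left K0 0
    linarith
  have hKnn : 0 ≤ K := le_max_right _ _
  obtain ⟨n2, hn2⟩ := exists_nat_gt ((100 + 20 * K) / (δ / 2))
  -- a level with one right special window
  have hex : ∃ N, n1 + n2 ≤ N ∧ p w (N + 1) ≤ p w N + 1 := by
    by_contra hcon
    push Not at hcon
    have hgrow : ∀ k : ℕ, 2 * k ≤ p w (n1 + n2 + k) := by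
      intro k
      induction k with
      | zero => simp
      | succ k ih =>
        have := hcon (n1 + n2 + k) (by omega)
        rw [show n1 + n2 + (k + 1) = n1 + n2 + k + 1 by omega]
        omega
    obtain ⟨k, hk⟩ := exists_nat_gt (3 * (n1 + n2 : ℝ))
    have h1 := hgrow k
    have h2 := hup (n1 + n2 + k) (by omega)
    have h1' : (2 : ℝ) * k ≤ p w (n1 + n2 + k) := by exact_mod_cast h1
    push_cast at h2
    have h3 : c' * ((n1 : ℝ) + n2 + k) ≤ 3 / 2 * ((n1 : ℝ) + n2 + k) :=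
      mul_le_mul_of_nonneg_right hc'2.le (by positivity)
    linarith
  obtain ⟨N0, hN0, hs⟩ := hex
  obtain ⟨T, χ, ℓ, hcod⟩ := exists_cod hw.np hs
  obtain ⟨N, T', χ', hN, hcod', -, hl⟩ := hcod.exists_bisp
  have hP := hup N (by omega)
  have hNnn : (0 : ℝ) ≤ N := Nat.cast_nonneg _
  have hP' : (p w N : ℝ) ≤ 3 / 2 * N := hP.trans (mul_le_mul_of_nonneg_right hc'2.le hNnn)
  have hn2' : (100 + 20 * K) / (δ / 2) < N := by
    have : (n2 : ℝ) ≤ N := by exact_mod_cast (show n2 ≤ N by omega)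
    linarith
  rw [div_lt_iff₀ (by positivity)] at hn2'
  set J := 20 * N + 20 with hJ
  set Δ := ⌈ε * J + K⌉₊ with hΔ
  have hJ2 : (J : ℝ) = 20 * N + 20 := by rw [hJ]; push_cast; ring
  have hΔle : (Δ : ℝ) ≤ ε * (20 * N + 20) + K + 1 := by
    have h1 := Nat.ceil_lt_add_one (show 0 ≤ ε * J + K by positivity)
    rw [← hΔ, hJ2] at h1
    linarith
  have hD : ∀ i j n : ℕ, i < j → j ≤ J → E w n i j → n ≤ j + Δ := by
    intro i j m hij hj hE
    have h1 := hK i j m hij hE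
    have h2 : (j : ℝ) ≤ J := by exact_mod_cast hj
    have h3 : ε * J + K ≤ Δ := Nat.le_ceil _
    have h4 : (m : ℝ) ≤ j + Δ := by nlinarith
    exact_mod_cast h4
  have hε1 : ε ≤ 1 / 400 := by rw [hε]; linarith
  have hεN : ε * N = δ / 400 * N := by rw [hε]
  have hδN : δ * N ≤ N := by nlinarith
  have hJ' : 6 * p w N + 6 + Δ ≤ J := by
    have : (6 * p w N + 6 + Δ : ℝ) ≤ 20 * N + 20 := by nlinarith
    rw [← hJ2] at this
    exact_mod_cast this
  obtain ⟨n, hn1', hn2'', hn3⟩ := hcod'.key_ineq2 hw.np hl hD hJ'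
  have hn3' : (3 : ℝ) * n ≤ 2 * p w n + 10 + 10 * Δ := by exact_mod_cast hn3
  have hn4 := hup n (by omega)
  have hn5 : (N : ℝ) ≤ n := by exact_mod_cast hn1'
  have hn6 : δ * n ≤ 10 + 10 * (ε * (20 * N + 20) + K + 1) := by
    have : δ * n = 3 * n - 2 * (c' * n) := by rw [hδ]; ring
    rw [this]
    linarith
  have hn7 : δ * N ≤ δ * n := mul_le_mul_of_nonneg_left hn5 hδpos.le
  nlinarith

theorem limsup_of_exp2 {ξ : ℝ} (h : Exp2 ξ) (b : ℕ) [NeZero b] (hb : 2 ≤ b) {c : ℝ}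
    (hc : c < 3 / 2) :
    ∃ᶠ n : ℕ in atTop, c * n < p (Real.digits (Int.fract ξ) b) n :=
  limsup_of_rep (rep_of_exp2 (Int.fract_nonneg ξ) h.fract hb) hc

end Pool.Agent.H43R2.Cplx
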