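import Pool.Agent.H43R2.Cplx.Branch
import Pool.Agent.H43R2.Cplx.Digits

namespace Pool.Agent.H43R2.Cplx

variable {α : Type*}

theorem lower_of_bad [Finite α] {w : ℕ → α} {Δ : ℕ}
    (hD : ∀ i j n, i < j → E w n i j → n ≤ j + Δ) :
    ∀ n, 5 * n ≤ 4 * p w n + (4 * Δ + 5) := by
  have hw : NP w := fun i j hij => ⟨j + Δ + 1, fun hE => by
    have := hD i j _ hij hE
    omega⟩
  intro n
  induction n with
  | zero => omega
  | succ n ih =>
    by_cases hs : p w (n + 1) ≤ p w n + 1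
    · obtain ⟨T, χ, ℓ, hcod⟩ := exists_cod hw hs
      obtain ⟨N, T', χ', hN, hcod', hpN, hl⟩ := hcod.exists_bisp
      have hkey := hcod'.key_ineq hl (J := 6 * p w N + 6 + Δ) (Δ := Δ)
        (fun i j n hij _ hE => hD i j n hij hE) le_rfl
      have := hw.p_succ n
      omega
    · omega

theorem sqrt2_bad (q : ℕ) (hq : 1 ≤ q) (m : ℤ) : 1 / (4 * q : ℝ) ≤ |q * √2 - m| := by
  have hq0 : (1 : ℝ) ≤ q := by exact_mod_cast hq
  have hs : √2 * √2 = 2 := Real.mul_self_sqrt (by norm_num)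
  have hs1 : √2 < 1.4143 := by
    rw [Real.sqrt_lt' (by norm_num)]; norm_num
  have hs0 : (0 : ℝ) ≤ √2 := Real.sqrt_nonneg 2
  have hne : (2 * (q : ℤ) ^ 2 - m ^ 2) ≠ 0 := by
    intro h0
    have hirr := irrational_sqrt_two
    apply hirr
    have h1 : (m : ℝ) ^ 2 = 2 * (q : ℝ) ^ 2 := by
      have : (m : ℤ) ^ 2 = 2 * (q : ℤ) ^ 2 := by linarith
      exact_mod_cast this
    refine ⟨|(m : ℚ)| / q, ?_⟩
    push_cast
    have h2 : √2 = |(m : ℝ)| / q := by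
      rw [eq_div_iff (by positivity)]
      have h3 : (√2 * q) ^ 2 = |(m : ℝ)| ^ 2 := by
        rw [sq_abs, h1, mul_pow, pow_two (√2), hs]
      exact (pow_left_inj₀ (by positivity) (abs_nonneg _) (by norm_num)).mp h3
    rw [h2]
  have h1 : (1 : ℝ) ≤ |(2 * (q : ℝ) ^ 2 - m ^ 2)| := by
    have : (1 : ℤ) ≤ |2 * (q : ℤ) ^ 2 - m ^ 2| := Int.one_le_abs hne
    exact_mod_cast this
  have h2 : (2 * (q : ℝ) ^ 2 - m ^ 2) = (q * √2 - m) * (q * √2 + m) := by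
    have : (q * √2 - m) * (q * √2 + m) = (q : ℝ) ^ 2 * (√2 * √2) - m ^ 2 := by ring
    rw [this, hs]; ring
  rw [h2, abs_mul] at h1
  rw [div_le_iff₀ (by positivity)]
  by_cases hlt : |q * √2 - m| < 1 / 4
  · have h3 : |(q * √2 + m : ℝ)| ≤ 4 * q := by
      rw [abs_lt] at hlt
      rw [abs_le]
      constructor <;> nlinarith [hlt.1, hlt.2]
    calc (1 : ℝ) ≤ |q * √2 - m| * |q * √2 + m| := h1
      _ ≤ |q * √2 - m| * (4 * q) := mul_le_mul_of_nonneg_left h3 (abs_nonneg _)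
  · push Not at hlt
    nlinarith

theorem sqrt2_rep {b : ℕ} [NeZero b] (hb : 2 ≤ b) {i j n : ℕ} (hij : i < j)
    (hE : E (Real.digits (Int.fract (√2)) b) n i j) : n ≤ j + 1 := by
  have hb1 : (2 : ℝ) ≤ b := by exact_mod_cast hb
  have hb0 : (0 : ℝ) < b := by linarith
  have h1 := approx (Int.fract_nonneg _) hE
  have hlt : b ^ i < b ^ j := Nat.pow_lt_pow_right (by omega) hij
  set m : ℤ := (fl (Int.fract (√2)) b j : ℤ) - (fl (Int.fract (√2)) b i : ℤ) with hm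
  have hcast : ((b ^ j - b ^ i : ℕ) : ℝ) = (b : ℝ) ^ j - (b : ℝ) ^ i := by
    rw [Nat.cast_sub hlt.le]; push_cast; ring
  have h2 := sqrt2_bad (b ^ j - b ^ i) (by omega) (m + (b ^ j - b ^ i : ℕ) * ⌊√2⌋)
  have e : ((b ^ j - b ^ i : ℕ) : ℝ) * √2 - ((m + (b ^ j - b ^ i : ℕ) * ⌊√2⌋ : ℤ) : ℝ) =
      ((b : ℝ) ^ j - (b : ℝ) ^ i) * Int.fract (√2) - m := by
    have e1 : ((m + (b ^ j - b ^ i : ℕ) * ⌊√2⌋ : ℤ) : ℝ) =
        (m : ℝ) + ((b ^ j - b ^ i : ℕ) : ℝ) * ⌊√2⌋ := by push_cast; ring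
    rw [e1, hcast]
    unfold Int.fract
    ring
  rw [e] at h2
  set A := |((b : ℝ) ^ j - (b : ℝ) ^ i) * Int.fract (√2) - m| with hA
  have hqpos : (0 : ℝ) < ((b ^ j - b ^ i : ℕ) : ℝ) := by
    exact_mod_cast (show 0 < b ^ j - b ^ i by omega)
  have hqle : ((b ^ j - b ^ i : ℕ) : ℝ) < (b : ℝ) ^ j := by
    rw [hcast]
    have : (0 : ℝ) < (b : ℝ) ^ i := by positivity
    linarith
  rw [div_le_iff₀ (by positivity)] at h2
  have hbn : (0 : ℝ) < (b : ℝ) ^ n := by positivity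
  have h3 : (b : ℝ) ^ n < 4 * (b : ℝ) ^ j := by
    calc (b : ℝ) ^ n = 1 * (b : ℝ) ^ n := by ring
      _ ≤ (A * (4 * ((b ^ j - b ^ i : ℕ) : ℝ))) * (b : ℝ) ^ n :=
          mul_le_mul_of_nonneg_right h2 hbn.le
      _ = (A * (b : ℝ) ^ n) * (4 * ((b ^ j - b ^ i : ℕ) : ℝ)) := by ring
      _ ≤ 1 * (4 * ((b ^ j - b ^ i : ℕ) : ℝ)) := by
          apply mul_le_mul_of_nonneg_right h1.le (by positivity)
      _ < 4 * (b : ℝ) ^ j := by linarith
  have h4 : (b : ℝ) ^ n < (b : ℝ) ^ (j + 2) := by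
    refine h3.trans_le ?_
    rw [pow_add]
    have : (4 : ℝ) ≤ (b : ℝ) ^ 2 := by nlinarith
    have hbj : (0 : ℝ) < (b : ℝ) ^ j := by positivity
    nlinarith
  have h5 : n < j + 2 := by
    by_contra hcon
    push Not at hcon
    have : (b : ℝ) ^ (j + 2) ≤ (b : ℝ) ^ n := pow_le_pow_right₀ (by linarith) hcon
    linarith
  omega

theorem sqrt2_blocks (b : ℕ) [NeZero b] (hb : 2 ≤ b) (n : ℕ) :
    5 * n ≤ 4 * p (Real.digits (Int.fract (√2)) b) n + 9 :=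
  lower_of_bad (Δ := 1) (fun _ _ _ hij hE => sqrt2_rep hb hij hE) n

end Pool.Agent.H43R2.Cplx
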